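import Mathlib

set_option autoImplicit false

/-! Convexity of a simple closed curve of positive curvature (Hopf's argument). -/

open Complex Set

namespace Ivrii.A0

/-- Smooth simple closed curve of positive curvature, complex valued. -/
structure Oval (g : ℝ → ℂ) : Prop where
  smooth : ContDiff ℝ (⊤ : ℕ∞) g
  per : ∀ s, g (s + 1) = g s
  inj : ∀ s t, g s = g t → ∃ k : ℤ, t = s + k
  curv : ∀ s, 0 < ((starRingEnd ℂ) (deriv g s) * deriv (deriv g) s).im

namespace Oval

variable {g : ℝ → ℂ}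

theorem smooth' (h : Oval g) : ContDiff ℝ (⊤ : ℕ∞) (deriv g) :=
  (contDiff_infty_iff_deriv.1 h.smooth).2

theorem smooth'' (h : Oval g) : ContDiff ℝ (⊤ : ℕ∞) (deriv (deriv g)) :=
  (contDiff_infty_iff_deriv.1 h.smooth').2

theorem hd (h : Oval g) (s : ℝ) : HasDerivAt g (deriv g s) s :=
  ((h.smooth.differentiable (by simp)) s).hasDerivAt

theorem hd' (h : Oval g) (s : ℝ) : HasDerivAt (deriv g) (deriv (deriv g) s) s :=
  ((h.smooth'.differentiable (by simp)) s).hasDerivAt

theorem d_ne (h : Oval g) (s : ℝ) : deriv g s ≠ 0 := by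
  intro h0
  have := h.curv s
  simp [h0] at this

theorem per' (h : Oval g) (s : ℝ) : deriv g (s + 1) = deriv g s := by
  have : (fun u => g (u + 1)) = g := funext h.per
  rw [← deriv_comp_add_const g 1 s, this]

theorem per'' (h : Oval g) (s : ℝ) : deriv (deriv g) (s + 1) = deriv (deriv g) s := by
  have : (fun u => deriv g (u + 1)) = deriv g := funext h.per'
  rw [← deriv_comp_add_const (deriv g) 1 s, this]

theorem perZ (h : Oval g) (s : ℝ) (k : ℤ) : g (s + k) = g s := by
  have : Function.Periodic g 1 := h.per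
  simpa using (this.int_mul k) s

theorem perZ' (h : Oval g) (s : ℝ) (k : ℤ) : deriv g (s + k) = deriv g s := by
  have : Function.Periodic (deriv g) 1 := h.per'
  simpa using (this.int_mul k) s

theorem perZ'' (h : Oval g) (s : ℝ) (k : ℤ) :
    deriv (deriv g) (s + k) = deriv (deriv g) s := by
  have : Function.Periodic (deriv (deriv g)) 1 := h.per''
  simpa using (this.int_mul k) s

end Oval

/-- Mean value of the derivative on the segment from `a` to `b`. -/
noncomputable def mean (g : ℝ → ℂ) (a b : ℝ) : ℂ := ∫ τ in (0 : ℝ)..1, deriv g (a + τ * (b - a))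

theorem mean_cont {g : ℝ → ℂ} (h : Oval g) : Continuous fun p : ℝ × ℝ => mean g p.1 p.2 := by
  unfold mean
  have hc := h.smooth'.continuous
  refine intervalIntegral.continuous_parametric_intervalIntegral_of_continuous' ?_ 0 1
  unfold Function.uncurry
  fun_prop

theorem mean_mul {g : ℝ → ℂ} (h : Oval g) (a b : ℝ) :
    ((b - a : ℝ) : ℂ) * mean g a b = g b - g a := by
  have hc := h.smooth'.continuous
  have h1 : ∀ τ ∈ uIcc (0 : ℝ) 1, HasDerivAt (fun τ : ℝ => g (a + τ * (b - a)))
      (((b - a : ℝ) : ℂ) * deriv g (a + τ * (b - a))) τ := by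
    intro τ _
    have h2 : HasDerivAt (fun τ : ℝ => a + τ * (b - a)) (b - a) τ := by
      simpa using ((hasDerivAt_id τ).mul_const (b - a)).const_add a
    have := (h.hd (a + τ * (b - a))).scomp τ h2
    simpa [Function.comp_def, Complex.real_smul] using this
  have h3 := intervalIntegral.integral_eq_sub_of_hasDerivAt h1
    (Continuous.intervalIntegrable (by fun_prop) 0 1)
  rw [intervalIntegral.integral_const_mul] at h3
  simpa [mean] using h3

theorem mean_self (g : ℝ → ℂ) (a : ℝ) : mean g a a = deriv g a := by simp [mean]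

theorem mean_shift {g : ℝ → ℂ} (h : Oval g) (a b : ℝ) : mean g (a + 1) (b + 1) = mean g a b := by
  unfold mean
  congr 1
  funext τ
  rw [← h.per' (a + τ * (b - a))]
  congr 1
  ring

theorem mean_one {g : ℝ → ℂ} (h : Oval g) (a : ℝ) : mean g a (a + 1) = 0 := by
  have := mean_mul h a (a + 1)
  rw [h.per] at this
  simpa using this

/-- The chord, normalised so that it extends to the two ends. -/
noncomputable def chord (g : ℝ → ℂ) (s r : ℝ) : ℂ := mean g s (s + r) - mean g (s + r) (s + 1)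

theorem chord_cont {g : ℝ → ℂ} (h : Oval g) : Continuous fun p : ℝ × ℝ => chord g p.1 p.2 := by
  have hc := mean_cont h
  unfold chord
  exact (hc.comp (f := fun p : ℝ × ℝ => (p.1, p.1 + p.2)) (by fun_prop)).sub
    (hc.comp (f := fun p : ℝ × ℝ => (p.1 + p.2, p.1 + 1)) (by fun_prop))

theorem chord_mul {g : ℝ → ℂ} (h : Oval g) (s r : ℝ) :
    ((r * (1 - r) : ℝ) : ℂ) * chord g s r = g (s + r) - g s := by
  have h1 := mean_mul h s (s + r)
  have h2 := mean_mul h (s + r) (s + 1)
  rw [h.per] at h2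
  unfold chord
  push_cast at h1 h2 ⊢
  linear_combination (1 - (r : ℂ)) * h1 - (r : ℂ) * h2

theorem chord_zero {g : ℝ → ℂ} (h : Oval g) (s : ℝ) : chord g s 0 = deriv g s := by
  simp [chord, mean_self, mean_one h]

theorem chord_symm {g : ℝ → ℂ} (h : Oval g) (s r : ℝ) :
    chord g (s + r) (1 - r) = -chord g s r := by
  unfold chord
  have e1 : s + r + (1 - r) = s + 1 := by ring
  rw [e1, mean_shift h]
  ring

theorem chord_one {g : ℝ → ℂ} (h : Oval g) (s : ℝ) : chord g s 1 = -deriv g s := by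
  have := chord_symm h s 0
  simpa [chord_zero h] using this

theorem chord_ne {g : ℝ → ℂ} (h : Oval g) (s : ℝ) {r : ℝ} (hr : r ∈ Icc (0 : ℝ) 1) :
    chord g s r ≠ 0 := by
  rcases hr.1.eq_or_lt with h0 | h0
  · rw [← h0, chord_zero h]; exact h.d_ne s
  rcases hr.2.eq_or_lt with h1 | h1
  · rw [h1, chord_one h]; exact neg_ne_zero.2 (h.d_ne s)
  intro hc
  have h2 := chord_mul h s r
  rw [hc, mul_zero] at h2
  obtain ⟨k, hk⟩ := h.inj s (s + r) (sub_eq_zero.1 h2.symm).symm
  have hk' : r = k := by linarith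
  rw [hk'] at h0 h1
  have a1 : (0 : ℤ) < k := by exact_mod_cast h0
  have a2 : k < (1 : ℤ) := by exact_mod_cast h1
  omega

/-- Clamp to the unit interval. -/
def cl (r : ℝ) : ℝ := max 0 (min r 1)

theorem cl_mem (r : ℝ) : cl r ∈ Icc (0 : ℝ) 1 :=
  ⟨le_max_left _ _, max_le zero_le_one (min_le_right _ _)⟩

theorem cl_of_mem {r : ℝ} (hr : r ∈ Icc (0 : ℝ) 1) : cl r = r := by
  unfold cl
  rw [min_eq_left hr.2, max_eq_right hr.1]

theorem cl_cont : Continuous cl := by unfold cl; fun_prop

theorem exists_lift {g : ℝ → ℂ} (h : Oval g) : ∃ L : ℝ × ℝ → ℂ, Continuous L ∧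
    ∀ s r, r ∈ Icc (0 : ℝ) 1 → exp (L (s, r)) = chord g s r := by
  have hc : Continuous fun p : ℝ × ℝ => chord g p.1 (cl p.2) :=
    (chord_cont h).comp (f := fun p : ℝ × ℝ => (p.1, cl p.2))
      (continuous_fst.prodMk (cl_cont.comp continuous_snd))
  let f : C(ℝ × ℝ, {z : ℂ // z ≠ 0}) :=
    ⟨fun p => ⟨chord g p.1 (cl p.2), chord_ne h _ (cl_mem _)⟩, hc.subtype_mk _⟩
  obtain ⟨F, ⟨-, hF⟩, -⟩ := Complex.isCoveringMap_exp.existsUnique_continuousMap_lifts f (0, 0)
    (log (chord g 0 (cl 0))) (Subtype.ext (exp_log (chord_ne h _ (cl_mem _))))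
  refine ⟨F, F.continuous, fun s r hr => ?_⟩
  have := congrArg Subtype.val (congrFun hF (s, r))
  simpa [f, cl_of_mem hr] using this

theorem lift_deriv {g : ℝ → ℂ} (h : Oval g) {Λ : ℝ → ℂ} (hc : Continuous Λ)
    (he : ∀ s, exp (Λ s) = deriv g s) (s : ℝ) :
    HasDerivAt Λ (deriv (deriv g) s / deriv g s) s := by
  have h1 : ∀ᶠ u in nhds s, Λ u = Λ s + log (deriv g u / deriv g s) := by
    have h2 : Continuous fun u => (Λ u - Λ s).im := by fun_prop
    have h3 : ∀ᶠ u in nhds s, (Λ u - Λ s).im ∈ Ioo (-Real.pi) Real.pi := by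
      apply h2.continuousAt.eventually (p := fun x => x ∈ Ioo (-Real.pi) Real.pi)
      apply Ioo_mem_nhds <;> simp [Real.pi_pos]
    filter_upwards [h3] with u hu
    rw [← he u, ← he s, ← exp_sub, log_exp hu.1 hu.2.le]
    ring
  have h4 : HasDerivAt (fun u => deriv g u / deriv g s) (deriv (deriv g) s / deriv g s) s :=
    (h.hd' s).div_const _
  have h5 := (h4.clog_real (by simp [div_self (h.d_ne s)])).const_add (Λ s)
  rw [div_self (h.d_ne s), div_one] at h5
  exact h5.congr_of_eventuallyEq h1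

theorem exists_angle {g : ℝ → ℂ} (h : Oval g) : ∃ Λ : ℝ → ℂ, Continuous Λ ∧
    (∀ s, exp (Λ s) = deriv g s) ∧ StrictMono (fun s => (Λ s).im) ∧
    ∀ s, (Λ (s + 1)).im = (Λ s).im + 2 * Real.pi := by
  obtain ⟨L, hL, he⟩ := exists_lift h
  have h0 : (0 : ℝ) ∈ Icc (0 : ℝ) 1 := ⟨le_rfl, zero_le_one⟩
  have h1 : (1 : ℝ) ∈ Icc (0 : ℝ) 1 := ⟨zero_le_one, le_rfl⟩
  have hΛc : Continuous fun s : ℝ => L (s, 0) := by fun_prop
  have hΛe : ∀ s, exp (L (s, 0)) = deriv g s := fun s => by rw [he s 0 h0, chord_zero h]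
  have hmono : StrictMono fun s => (L (s, 0)).im := by
    apply strictMono_of_hasDerivAt_pos
      (f' := fun s => (deriv (deriv g) s / deriv g s).im)
    · intro s
      exact (imCLM.hasFDerivAt.comp_hasDerivAt s (lift_deriv h hΛc hΛe s))
    · intro s
      have hc := h.curv s
      have hn : 0 < normSq (deriv g s) := normSq_pos.2 (h.d_ne s)
      rw [div_im]
      simp only [mul_im, conj_re, conj_im] at hc
      rw [← sub_div]
      apply div_pos _ hn
      linarith
  have hcl := cl_cont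
  let H : ℝ × ℝ → ℂ := fun p => L (p.1 + cl p.2, 1 - cl p.2) - L (p.1, cl p.2)
  have hHc : Continuous H := by
    unfold H
    fun_prop
  have hHe : ∀ p, exp (H p) = -1 := by
    intro p
    have hm := cl_mem p.2
    have hm' : 1 - cl p.2 ∈ Icc (0 : ℝ) 1 := ⟨by linarith [hm.2], by linarith [hm.1]⟩
    simp only [H]
    rw [exp_sub, he _ _ hm', he _ _ hm, chord_symm h, neg_div, div_self (chord_ne h _ hm)]
  have hconst : ∀ p p', H p = H p' :=
    Complex.isCoveringMap_exp.const_of_comp hHc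
      fun a a' => Subtype.ext (by simp only [hHe])
  set κ := H (0, 0) with hκ
  have ha : ∀ s, L (s, 1) - L (s, 0) = κ := fun s => by
    rw [hκ, ← hconst (s, 0) (0, 0)]
    simp [H, cl_of_mem h0]
  have hb : ∀ s, L (s + 1, 0) - L (s, 1) = κ := fun s => by
    rw [hκ, ← hconst (s, 1) (0, 0)]
    simp [H, cl_of_mem h1]
  have hab : ∀ s, (L (s + 1, 0)).im = (L (s, 0)).im + 2 * κ.im := fun s => by
    have a := congrArg Complex.im (ha s)
    have b := congrArg Complex.im (hb s)
    simp only [sub_im] at a b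
    linarith
  have hpos : 0 < κ.im := by
    have := hmono (show (0 : ℝ) < 0 + 1 by norm_num)
    simp only at this
    rw [hab] at this
    linarith
  have hsin : Real.sin κ.im = 0 := by
    have := congrArg Complex.im (hHe (0, 0))
    rw [exp_im] at this
    simpa using this
  obtain ⟨s0, -, hs0⟩ := (isCompact_Icc (a := (0 : ℝ)) (b := 1)).exists_isMinOn ⟨0, h0⟩
    (f := fun s => (g s).im) (by have := h.smooth.continuous; fun_prop)
  have hmin : ∀ s, (g s0).im ≤ (g s).im := by
    intro s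
    have e : g s = g (Int.fract s) := by
      rw [← h.perZ (Int.fract s) ⌊s⌋, Int.fract_add_floor]
    rw [e]
    exact hs0 ⟨Int.fract_nonneg s, (Int.fract_lt_one s).le⟩
  have him : ∀ r ∈ Icc (0 : ℝ) 1, 0 ≤ (chord g s0 r).im := by
    have hcc : Continuous fun r : ℝ => (chord g s0 r).im :=
      continuous_im.comp ((chord_cont h).comp (f := fun r : ℝ => (s0, r)) (by fun_prop))
    have hcl : IsClosed {r : ℝ | 0 ≤ (chord g s0 r).im} := isClosed_le continuous_const hcc
    have hsub : Ioo (0 : ℝ) 1 ⊆ {r : ℝ | 0 ≤ (chord g s0 r).im} := by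
      intro r hr
      have h2 := congrArg Complex.im (chord_mul h s0 r)
      rw [im_ofReal_mul, sub_im] at h2
      have h3 : 0 < r * (1 - r) := mul_pos hr.1 (by linarith [hr.2])
      have h4 := hmin (s0 + r)
      rw [mem_ofPred_eq]
      by_contra hneg
      have := mul_neg_of_pos_of_neg h3 (not_le.1 hneg)
      linarith
    intro r hr
    rw [← closure_Ioo (zero_ne_one' ℝ)] at hr
    exact hcl.closure_subset_iff.2 hsub hr
  have hsn : ∀ r ∈ Icc (0 : ℝ) 1, 0 ≤ Real.sin (L (s0, r)).im := by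
    intro r hr
    have h2 := him r hr
    rw [← he s0 r hr, exp_im] at h2
    exact (mul_nonneg_iff_of_pos_left (Real.exp_pos _)).1 h2
  have hle : κ.im ≤ Real.pi := by
    by_contra hlt
    rw [not_le] at hlt
    set x := (L (s0, 0)).im with hx
    have hx1 : (L (s0, 1)).im = x + κ.im := by
      have a := congrArg Complex.im (ha s0)
      simp only [sub_im] at a
      linarith
    have hiv := intermediate_value_Icc (a := (0 : ℝ)) (b := 1) zero_le_one
      (f := fun r => (L (s0, r)).im) (by fun_prop)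
    have hall : ∀ y ∈ Icc x (x + κ.im), 0 ≤ Real.sin y := by
      intro y hy
      obtain ⟨r, hr, e⟩ := hiv (by simpa [hx1] using hy)
      rw [← e]
      exact hsn r hr
    have hz : ∀ y ∈ Icc x (x + κ.im - Real.pi), Real.sin y = 0 := by
      intro y hy
      have a := hall y ⟨hy.1, by linarith [hy.2, Real.pi_pos]⟩
      have b := hall (y + Real.pi) ⟨by linarith [hy.1, Real.pi_pos], by linarith [hy.2]⟩
      rw [Real.sin_add_pi] at b
      linarith
    set δ := min (κ.im - Real.pi) 1 with hδ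
    have hδ0 : 0 < δ := lt_min (by linarith) one_pos
    have hδ1 : δ ≤ 1 := min_le_right _ _
    have hδ2 : δ ≤ κ.im - Real.pi := min_le_left _ _
    have a := hz x ⟨le_rfl, by linarith⟩
    have b := hz (x + δ) ⟨by linarith, by linarith⟩
    have c : Real.sin δ = 0 := by
      have : δ = (x + δ) - x := by ring
      rw [this, Real.sin_sub, a, b]
      ring
    have d := Real.sin_pos_of_pos_of_lt_pi hδ0 (by linarith [Real.pi_gt_three])
    linarith
  have hπ : κ.im = Real.pi := by
    rcases hle.eq_or_lt with e | e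
    · exact e
    · have := Real.sin_pos_of_pos_of_lt_pi hpos e
      linarith
  exact ⟨fun s => L (s, 0), hΛc, hΛe, hmono, fun s => by rw [hab, hπ]⟩

theorem cvx_Ioo {g : ℝ → ℂ} (h : Oval g) (s : ℝ) {r : ℝ} (hr : r ∈ Ioo s (s + 1)) :
    0 < ((starRingEnd ℂ) (deriv g s) * (g r - g s)).im := by
  obtain ⟨Λ, hc, he, hm, hp⟩ := exists_angle h
  let ψ : ℝ → ℝ := fun u => ((starRingEnd ℂ) (deriv g s) * (g u - g s)).im
  have hd : ∀ u, HasDerivAt ψ (Real.exp ((Λ s).re + (Λ u).re) *
      Real.sin ((Λ u).im - (Λ s).im)) u := by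
    intro u
    have h1 := imCLM.hasFDerivAt.comp_hasDerivAt u
      (((h.hd u).sub_const (g s)).const_mul ((starRingEnd ℂ) (deriv g s)))
    have e : Real.exp ((Λ s).re + (Λ u).re) * Real.sin ((Λ u).im - (Λ s).im) =
        imCLM ((starRingEnd ℂ) (deriv g s) * deriv g u) := by
      rw [← he u, ← he s, ← exp_conj, ← Complex.exp_add]
      simp only [imCLM_apply, exp_im, add_re, conj_re, add_im, conj_im]
      congr 2
      ring
    rw [e]
    exact h1
  have hψc : Continuous ψ := continuous_iff_continuousAt.2 fun u => (hd u).continuousAt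
  obtain ⟨m, hm1, hm2⟩ := intermediate_value_Ioo (a := s) (b := s + 1) (by linarith)
    (f := fun u => (Λ u).im) (by fun_prop)
    (show (Λ s).im + Real.pi ∈ Ioo _ _ from
      ⟨by linarith [Real.pi_pos], by rw [hp]; linarith [Real.pi_pos]⟩)
  simp only at hm2
  have e0 : ψ s = 0 := by simp [ψ]
  have e1 : ψ (s + 1) = 0 := by simp [ψ, h.per]
  have hA : StrictMonoOn ψ (Icc s m) := by
    apply strictMonoOn_of_deriv_pos (convex_Icc _ _) hψc.continuousOn
    intro u hu
    rw [interior_Icc] at hu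
    rw [(hd u).deriv]
    have a := hm hu.1
    have b := hm hu.2
    simp only at a b
    exact mul_pos (Real.exp_pos _) (Real.sin_pos_of_pos_of_lt_pi (by linarith) (by linarith))
  have hB : StrictAntiOn ψ (Icc m (s + 1)) := by
    apply strictAntiOn_of_deriv_neg (convex_Icc _ _) hψc.continuousOn
    intro u hu
    rw [interior_Icc] at hu
    rw [(hd u).deriv]
    have a := hm hu.1
    have b := hm hu.2
    simp only at a b
    rw [hp] at b
    apply mul_neg_of_pos_of_neg (Real.exp_pos _)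
    have := Real.sin_pos_of_pos_of_lt_pi (x := (Λ u).im - (Λ s).im - Real.pi)
      (by linarith) (by linarith)
    rw [Real.sin_sub_pi] at this
    linarith
  show 0 < ψ r
  rcases le_total r m with hrm | hrm
  · rw [← e0]
    exact hA ⟨le_rfl, hm1.1.le⟩ ⟨hr.1.le, hrm⟩ hr.1
  · rw [← e1]
    exact hB ⟨hrm, hr.2.le⟩ ⟨hm1.2.le, le_rfl⟩ hr.2

/-- Reduction modulo one into the open interval `(s, s + 1)`. -/
theorem exists_red {s r : ℝ} (hr : ∀ k : ℤ, r ≠ s + k) :
    ∃ k : ℤ, r + k ∈ Ioo s (s + 1) := by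
  refine ⟨-⌊r - s⌋, ?_, ?_⟩
  · have h1 := Int.floor_le (r - s)
    have h2 : (⌊r - s⌋ : ℝ) ≠ r - s := fun e => hr ⌊r - s⌋ (by linarith)
    have := lt_of_le_of_ne h1 h2
    push_cast
    linarith
  · have := Int.lt_floor_add_one (r - s)
    push_cast
    linarith

/-- Every point of the curve other than `g s` lies strictly to the left of the tangent at `s`. -/
theorem cvx {g : ℝ → ℂ} (h : Oval g) {s r : ℝ} (hr : ∀ k : ℤ, r ≠ s + k) :
    0 < ((starRingEnd ℂ) (deriv g s) * (g r - g s)).im := by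
  obtain ⟨k, hk⟩ := exists_red hr
  have := cvx_Ioo h s hk
  rwa [h.perZ] at this

end Ivrii.A0
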