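import Mathlib
import Pool.Agent.P.MP_7a8567_an.A0.Cvx

set_option autoImplicit false

/-! The billiard map of an oval is smooth. -/

open Complex Set Filter
open scoped ContDiff Topology

namespace Ivrii.A0

/-- Unit vector of the chord from `g s` to `g r`. -/
noncomputable def dir (g : ℝ → ℂ) (s r : ℝ) : ℂ := (g r - g s) / ((‖g r - g s‖ : ℝ) : ℂ)

/-- Tangential component at the start of the chord. -/
noncomputable def cosOut (g : ℝ → ℂ) (s r : ℝ) : ℝ :=
  ((starRingEnd ℂ) (deriv g s) * dir g s r).re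

/-- Tangential component at the end of the chord. -/
noncomputable def cosIn (g : ℝ → ℂ) (s r : ℝ) : ℝ :=
  ((starRingEnd ℂ) (deriv g r) * dir g s r).re

/-- Different modulo one. -/
def Far (s r : ℝ) : Prop := ∀ k : ℤ, r ≠ s + k

theorem Far.symm {s r : ℝ} (h : Far s r) : Far r s := fun k e =>
  h (-k) (by push_cast; linarith)

theorem Far.shift {s r : ℝ} (h : Far s r) (a b : ℤ) : Far (s + a) (r + b) := fun k e =>
  h (a + k - b) (by push_cast; linarith)

theorem far_of_Ioo {s r : ℝ} (h : r ∈ Ioo s (s + 1)) : Far s r := by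
  intro k e
  have a : (0 : ℝ) < k := by linarith [h.1]
  have b : (k : ℝ) < 1 := by linarith [h.2]
  have a1 : (0 : ℤ) < k := by exact_mod_cast a
  have a2 : k < (1 : ℤ) := by exact_mod_cast b
  omega

variable {g : ℝ → ℂ}

theorem Oval.sub_ne (h : Oval g) {s r : ℝ} (hf : Far s r) : g r - g s ≠ 0 := by
  intro e
  obtain ⟨k, hk⟩ := h.inj s r (sub_eq_zero.1 e).symm
  exact hf k hk

theorem Oval.dir_shift (h : Oval g) (s r : ℝ) (a b : ℤ) :
    dir g (s + a) (r + b) = dir g s r := by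
  simp only [dir, h.perZ]

theorem Oval.cosOut_shift (h : Oval g) (s r : ℝ) (a b : ℤ) :
    cosOut g (s + a) (r + b) = cosOut g s r := by
  simp only [cosOut, h.dir_shift, h.perZ']

theorem Oval.cosIn_shift (h : Oval g) (s r : ℝ) (a b : ℤ) :
    cosIn g (s + a) (r + b) = cosIn g s r := by
  simp only [cosIn, h.dir_shift, h.perZ']

theorem Oval.normSq_dir (h : Oval g) {s r : ℝ} (hf : Far s r) : normSq (dir g s r) = 1 := by
  have := norm_ne_zero_iff.2 (h.sub_ne hf)
  rw [dir, normSq_div, normSq_ofReal, normSq_eq_norm_sq]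
  field_simp

theorem Oval.im_out (h : Oval g) {s r : ℝ} (hf : Far s r) :
    0 < ((starRingEnd ℂ) (deriv g s) * dir g s r).im := by
  rw [dir, ← mul_div_assoc, div_ofReal_im]
  exact div_pos (cvx h hf) (norm_pos_iff.2 (h.sub_ne hf))

theorem Oval.im_in (h : Oval g) {s r : ℝ} (hf : Far s r) :
    ((starRingEnd ℂ) (deriv g r) * dir g s r).im < 0 := by
  rw [dir, ← mul_div_assoc, div_ofReal_im]
  apply div_neg_of_neg_of_pos _ (norm_pos_iff.2 (h.sub_ne hf))
  have := cvx h hf.symm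
  rw [← neg_sub, mul_neg, neg_im] at this
  linarith

theorem Oval.smooth_dir (h : Oval g) {E : Type} [NormedAddCommGroup E] [NormedSpace ℝ E]
    {a b : E → ℝ} {p : E} (ha : ContDiffAt ℝ ∞ a p) (hb : ContDiffAt ℝ ∞ b p)
    (hf : Far (a p) (b p)) : ContDiffAt ℝ ∞ (fun x => dir g (a x) (b x)) p := by
  have h1 : ContDiffAt ℝ ∞ (fun x => g (b x) - g (a x)) p :=
    (h.smooth.contDiffAt.comp p hb).sub (h.smooth.contDiffAt.comp p ha)
  have h2 := h1.norm ℝ (h.sub_ne hf)
  have h3 : ContDiffAt ℝ ∞ (fun x => ((‖g (b x) - g (a x)‖ : ℝ) : ℂ)) p :=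
    ofRealCLM.contDiff.contDiffAt.comp p h2
  have h4 := h1.mul (h3.inv (by exact_mod_cast norm_ne_zero_iff.2 (h.sub_ne hf)))
  simpa only [dir, div_eq_mul_inv, Pi.inv_apply] using h4

theorem Oval.smooth_cd (h : Oval g) {E : Type} [NormedAddCommGroup E] [NormedSpace ℝ E]
    {a : E → ℝ} {p : E} (ha : ContDiffAt ℝ ∞ a p) :
    ContDiffAt ℝ ∞ (fun x => (starRingEnd ℂ) (deriv g (a x))) p :=
  conjCLE.contDiff.contDiffAt.comp p (h.smooth'.contDiffAt.comp p ha)

theorem Oval.cosOut_deriv (h : Oval g) {s r : ℝ} (hf : Far s r) :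
    ∃ d < 0, HasDerivAt (cosOut g s) d r := by
  set a := deriv g s with ha
  set b := deriv g r with hb
  have hΔ : HasDerivAt (fun u => g u - g s) b r := (h.hd r).sub_const _
  have hx : HasDerivAt (fun u => (g u - g s).re) b.re r := reCLM.hasFDerivAt.comp_hasDerivAt r hΔ
  have hy : HasDerivAt (fun u => (g u - g s).im) b.im r := imCLM.hasFDerivAt.comp_hasDerivAt r hΔ
  have c1 := cvx h hf
  have c2 := cvx h hf.symm
  rw [← neg_sub (g r), mul_neg, neg_im] at c2
  rw [← ha] at c1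
  rw [← hb] at c2
  set x := (g r - g s).re with hxd
  set y := (g r - g s).im with hyd
  simp only [mul_im, conj_re, conj_im, ← hxd, ← hyd] at c1 c2
  have hM : 0 < x * x + y * y := by
    have := normSq_pos.2 (h.sub_ne hf)
    rwa [normSq_apply] at this
  have hS := ((hx.mul hx).add (hy.mul hy)).sqrt hM.ne'
  have hN := (hx.const_mul a.re).add (hy.const_mul a.im)
  have hL : 0 < √(x * x + y * y) := Real.sqrt_pos.2 hM
  have hQ := hN.div hS hL.ne'
  refine ⟨_, ?_, hQ.congr_of_eventuallyEq (Eventually.of_forall fun u => ?_)⟩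
  · simp only [Pi.add_apply, Pi.mul_apply, ← hxd, ← hyd]
    set L := √(x * x + y * y) with hLd
    have hLL : L * L = x * x + y * y := Real.mul_self_sqrt hM.le
    apply div_neg_of_neg_of_pos _ (pow_pos hL 2)
    have e : (a.re * b.re + a.im * b.im) * L - (a.re * x + a.im * y) *
        ((b.re * x + x * b.re + (b.im * y + y * b.im)) / (2 * L)) =
        (a.re * y + -a.im * x) * (b.re * y + -b.im * x) / L := by
      field_simp
      linear_combination 2 * (a.re * b.re + a.im * b.im) * hLL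
    rw [e]
    exact div_neg_of_neg_of_pos (mul_neg_of_pos_of_neg c1 (by linarith)) hL
  · simp only [cosOut, dir, ← ha, Pi.add_apply, Pi.mul_apply, Pi.div_apply]
    rw [← mul_div_assoc, div_ofReal_re, Complex.norm_def, normSq_apply]
    simp only [mul_re, conj_re, conj_im]
    ring

theorem Oval.cosOut_anti (h : Oval g) (s : ℝ) : StrictAntiOn (cosOut g s) (Ioo s (s + 1)) := by
  apply strictAntiOn_of_deriv_neg (convex_Ioo _ _)
  · intro r hr
    obtain ⟨d, -, hd⟩ := h.cosOut_deriv (far_of_Ioo hr)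
    exact hd.continuousAt.continuousWithinAt
  · intro r hr
    rw [interior_Ioo] at hr
    obtain ⟨d, h0, hd⟩ := h.cosOut_deriv (far_of_Ioo hr)
    rwa [hd.deriv]

/-- The next bounce parameter. -/
noncomputable def next (g : ℝ → ℂ) (p : ℝ × ℝ) : ℝ :=
  Classical.epsilon fun r => r ∈ Ioo p.2 (p.2 + 1) ∧ cosOut g p.2 r = cosIn g p.1 p.2

theorem Oval.next_eq (h : Oval g) {p : ℝ × ℝ} {r : ℝ} (hr : r ∈ Ioo p.2 (p.2 + 1))
    (e : cosOut g p.2 r = cosIn g p.1 p.2) : next g p = r := by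
  have := Classical.epsilon_spec
    (p := fun r => r ∈ Ioo p.2 (p.2 + 1) ∧ cosOut g p.2 r = cosIn g p.1 p.2) ⟨r, hr, e⟩
  exact (h.cosOut_anti p.2).injOn this.1 hr (this.2.trans e.symm)

theorem Oval.smooth_next (h : Oval g) {p : ℝ × ℝ} {r : ℝ} (hp : Far p.1 p.2)
    (hr : r ∈ Ioo p.2 (p.2 + 1)) (e : cosOut g p.2 r = cosIn g p.1 p.2) :
    ContDiffAt ℝ ∞ (next g) p := by
  let f : (ℝ × ℝ) × ℝ → ℝ := fun v => cosOut g v.1.2 v.2 - cosIn g v.1.1 v.1.2
  have s12 : ContDiffAt ℝ ∞ (fun v : (ℝ × ℝ) × ℝ => v.1.2) (p, r) := by fun_prop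
  have s11 : ContDiffAt ℝ ∞ (fun v : (ℝ × ℝ) × ℝ => v.1.1) (p, r) := by fun_prop
  have s2 : ContDiffAt ℝ ∞ (fun v : (ℝ × ℝ) × ℝ => v.2) (p, r) := by fun_prop
  have hf : ContDiffAt ℝ ∞ f (p, r) :=
    (reCLM.contDiff.contDiffAt.comp (p, r)
      ((h.smooth_cd s12).mul (h.smooth_dir s12 s2 (far_of_Ioo hr)))).sub
    (reCLM.contDiff.contDiffAt.comp (p, r)
      ((h.smooth_cd s12).mul (h.smooth_dir s11 s12 hp)))
  obtain ⟨d, hd0, hd⟩ := h.cosOut_deriv (far_of_Ioo hr)
  have hinv : (fderiv ℝ f (p, r) ∘L ContinuousLinearMap.inr ℝ (ℝ × ℝ) ℝ).IsInvertible := by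
    have h1 : HasFDerivAt (f ∘ fun u : ℝ => (p, u))
        (fderiv ℝ f (p, r) ∘L ContinuousLinearMap.inr ℝ (ℝ × ℝ) ℝ) r :=
      (hf.differentiableAt (by simp)).hasFDerivAt.comp r (hasFDerivAt_prodMk_right p r)
    have h2 : HasDerivAt (f ∘ fun u : ℝ => (p, u)) d r := hd.sub_const (cosIn g p.1 p.2)
    exact ⟨_, (h2.hasFDerivAt_equiv hd0.ne).unique h1⟩
  have hψ := hf.contDiffAt_implicitFunction (by simp) hinv
  have hψ0 := hf.implicitFunction_apply_self (by simp) hinv
  have hψ1 := hf.eventually_apply_implicitFunction (by simp) hinv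
  set ψ := hf.implicitFunction (by simp) hinv
  simp only at hψ hψ0 hψ1
  refine hψ.congr_of_eventuallyEq ?_
  have c1 : ContinuousAt (fun x : ℝ × ℝ => ψ x - x.2) p :=
    hψ.continuousAt.sub continuousAt_snd
  have c2 : ∀ᶠ x in 𝓝 p, ψ x - x.2 ∈ Ioo (0 : ℝ) 1 :=
    c1.eventually (p := fun y => y ∈ Ioo (0 : ℝ) 1)
      (Ioo_mem_nhds (by simp only [hψ0]; linarith [hr.1])
        (by simp only [hψ0]; linarith [hr.2]))
  filter_upwards [hψ1, c2] with x h1 h2
  refine h.next_eq ⟨by linarith [h2.1], by linarith [h2.2]⟩ ?_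
  simp only [f, e, sub_self] at h1
  exact sub_eq_zero.1 h1

/-- Iterates of the billiard map. -/
noncomputable def iter (g : ℝ → ℂ) : ℕ → ℝ × ℝ → ℝ × ℝ
  | 0 => fun p => p
  | i + 1 => fun p => ((iter g i p).2, next g (iter g i p))

/-- A billiard orbit. -/
structure Orbit (g : ℝ → ℂ) (x : ℕ → ℝ) : Prop where
  far : ∀ i, Far (x i) (x (i + 1))
  law : ∀ i, cosOut g (x (i + 1)) (x (i + 2)) = cosIn g (x i) (x (i + 1))

theorem Oval.iter_spec (h : Oval g) {x : ℕ → ℝ} (o : Orbit g x) (i : ℕ) :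
    (∃ a b : ℤ, iter g i (x 0, x 1) = (x i + a, x (i + 1) + b)) ∧
      ContDiffAt ℝ ∞ (iter g i) (x 0, x 1) := by
  induction i with
  | zero => exact ⟨⟨0, 0, by simp [iter]⟩, contDiffAt_id⟩
  | succ i ih =>
    obtain ⟨⟨a, b, e⟩, hs⟩ := ih
    obtain ⟨k, hk⟩ := exists_red ((o.far (i + 1)).shift b 0)
    have hk' : x (i + 2) + k ∈ Ioo (x (i + 1) + b) (x (i + 1) + b + 1) := by simpa using hk
    have hl : cosOut g (x (i + 1) + b) (x (i + 2) + k) = cosIn g (x i + a) (x (i + 1) + b) := by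
      rw [h.cosOut_shift, h.cosIn_shift, o.law]
    constructor
    · refine ⟨b, k, ?_⟩
      simp only [iter, e]
      rw [h.next_eq (p := (x i + a, x (i + 1) + b)) hk' hl]
    · have h1 : ContDiffAt ℝ ∞ (next g) (iter g i (x 0, x 1)) := by
        rw [e]
        exact h.smooth_next (p := (x i + a, x (i + 1) + b)) ((o.far i).shift a b) hk' hl
      exact (contDiffAt_snd.comp _ hs).prodMk (h1.comp _ hs)

theorem Oval.orbit_unique (h : Oval g) {x y : ℕ → ℝ} (ox : Orbit g x) (oy : Orbit g y)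
    (h0 : x 0 = y 0) (h1 : x 1 = y 1) (i : ℕ) : ∃ a : ℤ, y i = x i + a := by
  obtain ⟨a, b, e⟩ := (h.iter_spec ox i).1
  obtain ⟨a', b', e'⟩ := (h.iter_spec oy i).1
  rw [← h0, ← h1, e] at e'
  refine ⟨a - a', ?_⟩
  have := congrArg Prod.fst e'
  push_cast
  simp only at this
  linarith

theorem Oval.orbit_per (h : Oval g) {x : ℕ → ℝ} (o : Orbit g x) {n : ℕ} {k m : ℤ}
    (h0 : x n = x 0 + k) (h1 : x (n + 1) = x 1 + m) (i : ℕ) : ∃ a : ℤ, x (i + n) = x i + a := by
  let s : ℕ → ℤ := fun i => if i = 0 then -k else if i = 1 then -m else 0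
  have oy : Orbit g fun i => x (i + n) + s i := by
    constructor
    · intro i
      have := (o.far (i + n)).shift (s i) (s (i + 1))
      rwa [show i + n + 1 = i + 1 + n by ring] at this
    · intro i
      rw [h.cosOut_shift, h.cosIn_shift]
      have := o.law (i + n)
      rwa [show i + n + 1 = i + 1 + n by ring, show i + n + 2 = i + 2 + n by ring] at this
  obtain ⟨a, ha⟩ := h.orbit_unique o oy (by simp [s, h0]) (by simp [s, add_comm 1 n, h1]) i
  refine ⟨a - s i, ?_⟩
  push_cast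
  linarith

/-- The equal angle law is the reflection law. -/
theorem Oval.reflect (h : Oval g) {s r u : ℝ} (h1 : Far s r) (h2 : Far r u)
    (e : cosOut g r u = cosIn g s r) :
    (starRingEnd ℂ) (deriv g r) * dir g r u = deriv g r * (starRingEnd ℂ) (dir g s r) := by
  have a1 := h.im_out h2
  have a2 := h.im_in h1
  have n1 : normSq ((starRingEnd ℂ) (deriv g r) * dir g r u) =
      normSq ((starRingEnd ℂ) (deriv g r) * dir g s r) := by
    rw [map_mul, map_mul, h.normSq_dir h1, h.normSq_dir h2]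
  have e2 : deriv g r * (starRingEnd ℂ) (dir g s r) =
      (starRingEnd ℂ) ((starRingEnd ℂ) (deriv g r) * dir g s r) := by simp
  rw [e2]
  unfold cosOut cosIn at e
  set A := (starRingEnd ℂ) (deriv g r) * dir g r u
  set B := (starRingEnd ℂ) (deriv g r) * dir g s r
  rw [normSq_apply, normSq_apply, e] at n1
  apply Complex.ext
  · simpa using e
  · rw [conj_im]
    have : (A.im - B.im) * (A.im + B.im) = 0 := by linear_combination n1
    have := (mul_eq_zero.1 this).resolve_left (by linarith)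
    linarith

end Ivrii.A0
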