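import Mathlib

set_option autoImplicit false

/-! Extension of derivations along algebraic extensions; fields of constants. -/

open Polynomial

namespace Ivrii.A0

theorem der_ext {R K L : Type*} [CommRing R] [Field K] [Field L] [Algebra R K] [Algebra R L]
    [Algebra K L] [IsScalarTower R K L] [CharZero K] [Algebra.IsAlgebraic K L]
    (d : Derivation R K L) : ∃ D : Derivation R L L, ∀ a : K, D (algebraMap K L a) = d a := by
  have : Algebra.FormallyEtale K L := Algebra.FormallyEtale.of_isSeparable K L
  let e := KaehlerDifferential.tensorKaehlerEquivOfFormallyEtale R K L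
  let φ : TensorProduct K L (KaehlerDifferential R K) →ₗ[L] L :=
    LinearMap.liftBaseChange L d.liftKaehlerDifferential
  refine ⟨(φ.comp e.symm.toLinearMap).compDer (KaehlerDifferential.D R L), fun a => ?_⟩
  have := KaehlerDifferential.tensorKaehlerEquivOfFormallyEtale_symm_D_algebraMap R K L a
  change φ (e.symm (KaehlerDifferential.D R L (algebraMap K L a))) = _
  rw [this]
  simp [φ]

/-- A derivation that kills the image of a field kills every element algebraic over it. -/
theorem der_zero {R K L : Type*} [CommRing R] [Field K] [Field L] [Algebra R L]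
    [Algebra K L] [CharZero K] (D : Derivation R L L) (hD : ∀ a : K, D (algebraMap K L a) = 0)
    {x : L} (hx : IsAlgebraic K x) : D x = 0 := by
  have hi := hx.isIntegral
  have key : ∀ p : K[X], D (aeval x p) = aeval x (derivative p) * D x := by
    intro p
    induction p using Polynomial.induction_on' with
    | add p q hp hq => simp [hp, hq, add_mul]
    | monomial n a =>
      simp only [aeval_monomial, derivative_monomial, Derivation.leibniz, hD,
        Derivation.leibniz_pow, smul_eq_mul, nsmul_eq_mul, map_mul, map_natCast]
      ring
  have h0 := key (minpoly K x)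
  rw [minpoly.aeval, map_zero] at h0
  have hs : (minpoly K x).Separable := (minpoly.irreducible hi).separable
  exact (mul_eq_zero.1 h0.symm).resolve_left (hs.aeval_derivative_ne_zero (minpoly.aeval K x))

/-- Common constants of two derivations. -/
def consts {L : Type*} [Field L] (D E : Derivation ℤ L L) : Subfield L where
  carrier := {f | D f = 0 ∧ E f = 0}
  mul_mem' := fun ha hb => by simp [ha.1, ha.2, hb.1, hb.2]
  one_mem' := by simp
  add_mem' := fun ha hb => by simp [ha.1, ha.2, hb.1, hb.2]
  zero_mem' := by simp
  neg_mem' := fun ha => by simp [ha.1, ha.2]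
  inv_mem' := fun a ha => by simp [Derivation.leibniz_inv, ha.1, ha.2]

theorem consts_closed {L : Type*} [Field L] [CharZero L] [IsAlgClosed L]
    (D E : Derivation ℤ L L) : IsAlgClosed (consts D E) := by
  refine IsAlgClosed.of_exists_root _ fun p _ hp => ?_
  obtain ⟨x, hx⟩ := IsAlgClosed.exists_aeval_eq_zero L p (degree_pos_of_irreducible hp).ne'
  have ha : IsAlgebraic (consts D E) x := ⟨p, hp.ne_zero, hx⟩
  have hm : x ∈ consts D E :=
    ⟨der_zero D (fun a : consts D E => a.2.1) ha, der_zero E (fun a : consts D E => a.2.2) ha⟩
  refine ⟨⟨x, hm⟩, ?_⟩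
  apply (algebraMap (consts D E) L).injective
  rw [map_zero, ← hx, ← aeval_algebraMap_apply_eq_algebraMap_eval]
  rfl

/-- A derivation over the integers that kills `k` is a `k`-derivation. -/
def overK {k L : Type*} [Field k] [Field L] [Algebra k L] (D : Derivation ℤ L L)
    (h : ∀ a : k, D (algebraMap k L a) = 0) : Derivation k L L :=
  Derivation.mk'
    { toFun := D
      map_add' := map_add D
      map_smul' := fun a x => by
        simp [Algebra.smul_def, h] }
    fun a b => D.leibniz a b

@[simp] theorem overK_apply {k L : Type*} [Field k] [Field L] [Algebra k L] (D : Derivation ℤ L L)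
    (h : ∀ a : k, D (algebraMap k L a) = 0) (x : L) : overK D h x = D x := rfl

end Ivrii.A0
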