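import Mathlib

set_option autoImplicit false

/-!
Interface between the analytic reduction (block A0) and the algebraic main theorem.
`NoClosed` says that no periodic chain of reflections exists in a differential field.
Lines are `l j = (t j, P j)`, points are `A j = (z j, w j)`; `l j` passes through `A j` and
`A (j + 1)`; link `j + 1` is `(l j, A (j + 1), l (j + 1))`.
-/

namespace Ivrii.A0

/-- A periodic chain of reflections, of period `n`, in the differential field `Ω` over `k`. -/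
structure Closed (k Ω : Type) [Field k] [Field Ω] [Algebra k Ω] where
  ι : ℝ →+* k
  D₁ : Derivation k Ω Ω
  D₂ : Derivation k Ω Ω
  τ : Ω →+* Ω
  n : ℕ
  t : ℕ → Ω
  P : ℕ → Ω
  z : ℕ → Ω
  w : ℕ → Ω
  q : ℕ → Ω
  c : ℕ → Ω
  comm : ∀ f, D₁ (D₂ f) = D₂ (D₁ f)
  const : ∀ f, D₁ f = 0 → D₂ f = 0 → ∃ a : k, algebraMap k Ω a = f
  ττ : ∀ f, τ (τ f) = f
  τk : ∀ a : k, ∃ b : k, τ (algebraMap k Ω a) = algebraMap k Ω b
  τι : ∀ r : ℝ, τ (algebraMap k Ω (ι r)) = algebraMap k Ω (ι r)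
  t_ne : ∀ j, t j ≠ 0
  br : ∀ j, D₁ (P j) * D₂ (t j) - D₂ (P j) * D₁ (t j) = t j
  on₀ : ∀ j, P j = z j / t j - w j * t j
  on₁ : ∀ j, P j = z (j + 1) / t j - w (j + 1) * t j
  refl : ∀ j, q (j + 1) = t j * t (j + 1)
  dz₁ : ∀ j, D₁ (z j) = q j * D₁ (w j)
  dz₂ : ∀ j, D₂ (z j) = q j * D₂ (w j)
  dq₁ : ∀ j, D₁ (q j) = c j * D₁ (w j)
  dq₂ : ∀ j, D₂ (q j) = c j * D₂ (w j)
  c_ne : ∀ j, c j ≠ 0
  τz : ∀ j, τ (z j) = w j
  τt : ∀ j, τ (t j) = (t j)⁻¹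
  z_ne : ∀ j, z j ≠ z (j + 1)
  w_ne : ∀ j, w j ≠ w (j + 1)
  pp : ∀ (i j : ℕ) (a b : Ω), a ≠ 0 → b ≠ 0 →
    q (i + 1) * (t (i + 1) - t i) / c (i + 1) * (a * τ a) +
      q (j + 1) * (t (j + 1) - t j) / c (j + 1) * (b * τ b) ≠ 0
  n_pos : 1 ≤ n
  t_per : ∀ j, t (j + n) = t j
  P_per : ∀ j, P (j + n) = P j
  z_per : ∀ j, z (j + n) = z j
  w_per : ∀ j, w (j + n) = w j
  q_per : ∀ j, q (j + n) = q j
  c_per : ∀ j, c (j + n) = c j

/-- The algebraic main theorem, as a proposition. -/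
def NoClosed : Prop :=
  ∀ (k Ω : Type) [Field k] [Field Ω] [Algebra k Ω] [IsAlgClosed k] [IsAlgClosed Ω] [CharZero k],
    Closed k Ω → False

end Ivrii.A0
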