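import Mathlib
import Pool.Agent.P.MP_7a8567_an.A0.Iface
import Pool.Agent.P.MP_7a8567_an.A0.Ext

set_option autoImplicit false

/-! Normalisation of the two derivations. -/

namespace Ivrii.A0

/-- A periodic chain before normalisation of the derivations. -/
structure Pre (Ω : Type) [Field Ω] where
  ι : ℝ →+* Ω
  D₁ : Derivation ℤ Ω Ω
  D₂ : Derivation ℤ Ω Ω
  τ : Ω →+* Ω
  n : ℕ
  t : ℕ → Ω
  z : ℕ → Ω
  w : ℕ → Ω
  q : ℕ → Ω
  c : ℕ → Ω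
  comm : ∀ f, D₁ (D₂ f) = D₂ (D₁ f)
  τD₁ : ∀ f, D₁ (τ f) = τ (D₁ f)
  τD₂ : ∀ f, D₂ (τ f) = τ (D₂ f)
  ττ : ∀ f, τ (τ f) = f
  Dι₁ : ∀ r, D₁ (ι r) = 0
  Dι₂ : ∀ r, D₂ (ι r) = 0
  τι : ∀ r, τ (ι r) = ι r
  t_ne : ∀ j, t j ≠ 0
  chord : ∀ j, z (j + 1) - z j = t j ^ 2 * (w (j + 1) - w j)
  refl : ∀ j, q (j + 1) = t j * t (j + 1)
  dz₁ : ∀ j, D₁ (z j) = q j * D₁ (w j)
  dz₂ : ∀ j, D₂ (z j) = q j * D₂ (w j)
  dq₁ : ∀ j, D₁ (q j) = c j * D₁ (w j)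
  dq₂ : ∀ j, D₂ (q j) = c j * D₂ (w j)
  c_ne : ∀ j, c j ≠ 0
  τz : ∀ j, τ (z j) = w j
  τt : ∀ j, τ (t j) = (t j)⁻¹
  z_ne : ∀ j, z j ≠ z (j + 1)
  pp : ∀ (i j : ℕ) (a b : Ω), a ≠ 0 → b ≠ 0 →
    q (i + 1) * (t (i + 1) - t i) / c (i + 1) * (a * τ a) +
      q (j + 1) * (t (j + 1) - t j) / c (j + 1) * (b * τ b) ≠ 0
  n_pos : 1 ≤ n
  t_per : ∀ j, t (j + n) = t j
  z_per : ∀ j, z (j + n) = z j
  q_per : ∀ j, q (j + n) = q j
  c_per : ∀ j, c (j + n) = c j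
  w₀₁ : D₁ (w 0) ≠ 0
  w₀₂ : D₂ (w 0) = 0
  w₁₁ : D₁ (w 1) = 0
  w₁₂ : D₂ (w 1) ≠ 0

namespace Pre

variable {Ω : Type} [Field Ω] (C : Pre Ω)

/-- Moment of the line number `j`. -/
noncomputable def P (j : ℕ) : Ω := C.z j / C.t j - C.w j * C.t j

theorem P_eq (j : ℕ) : C.P j = C.z (j + 1) / C.t j - C.w (j + 1) * C.t j := by
  have h := C.chord j
  have ht := C.t_ne j
  unfold P
  field_simp
  linear_combination -h

theorem w_ne (j : ℕ) : C.w j ≠ C.w (j + 1) := by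
  intro h
  apply C.z_ne j
  have := C.chord j
  rw [h, sub_self, mul_zero] at this
  exact (sub_eq_zero.1 this).symm

theorem w_per (j : ℕ) : C.w (j + C.n) = C.w j := by
  rw [← C.τz, ← C.τz, C.z_per]

theorem t_ne_succ (j : ℕ) : C.t (j + 1) ≠ C.t j := by
  intro h
  have := C.pp j j 1 1 one_ne_zero one_ne_zero
  simp [h] at this

theorem q_ne_sq (j : ℕ) : C.q j ≠ C.t j ^ 2 := by
  obtain ⟨m, hm⟩ : ∃ m, j + C.n = m + 1 := ⟨j + C.n - 1, by have := C.n_pos; omega⟩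
  rw [← C.q_per, ← C.t_per, hm, C.refl, sq]
  intro h
  exact C.t_ne_succ m (mul_right_cancel₀ (C.t_ne _) h).symm

theorem q_ne_sq' (j : ℕ) : C.q (j + 1) ≠ C.t j ^ 2 := by
  rw [C.refl, sq]
  intro h
  exact C.t_ne_succ j (mul_left_cancel₀ (C.t_ne _) h)

end Pre

theorem der_P {Ω : Type} [Field Ω] (D : Derivation ℤ Ω Ω) {z w t q : Ω} (ht : t ≠ 0)
    (h : D z = q * D w) :
    D (z / t - w * t) = (q / t - t) * D w - (z / t + w * t) * (D t / t) := by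
  rw [map_sub, D.leibniz_div, D.leibniz, h]
  simp only [smul_eq_mul]
  field_simp
  ring

namespace Pre

variable {Ω : Type} [Field Ω] (C : Pre Ω)

/-- The bracket of the original derivations. -/
noncomputable def br (f g : Ω) : Ω := C.D₁ f * C.D₂ g - C.D₂ f * C.D₁ g

theorem br_P (j : ℕ) : C.br (C.P j) (C.t j) = (C.q j / C.t j - C.t j) * C.br (C.w j) (C.t j) := by
  unfold br P
  rw [der_P C.D₁ (C.t_ne j) (C.dz₁ j), der_P C.D₂ (C.t_ne j) (C.dz₂ j)]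
  ring

theorem br_P' (j : ℕ) : C.br (C.P j) (C.t j) =
    (C.q (j + 1) / C.t j - C.t j) * C.br (C.w (j + 1)) (C.t j) := by
  unfold br
  rw [C.P_eq, der_P C.D₁ (C.t_ne j) (C.dz₁ _), der_P C.D₂ (C.t_ne j) (C.dz₂ _)]
  ring

theorem inv_step (j : ℕ) :
    C.br (C.P (j + 1)) (C.t (j + 1)) / C.t (j + 1) = C.br (C.P j) (C.t j) / C.t j := by
  rw [C.br_P (j + 1), C.br_P' j]
  have h1 := C.dq₁ (j + 1)
  have h2 := C.dq₂ (j + 1)
  rw [C.refl, Derivation.leibniz] at h1 h2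
  simp only [smul_eq_mul] at h1 h2
  have a := C.t_ne j
  have b := C.t_ne (j + 1)
  rw [C.refl]
  unfold br
  field_simp
  linear_combination (C.t j - C.t (j + 1)) * (C.D₁ (C.w (j + 1)) * h2 - C.D₂ (C.w (j + 1)) * h1)

theorem br_zero_ne : C.br (C.P 0) (C.t 0) ≠ 0 := by
  have ht := C.t_ne 0
  have e0 := der_P C.D₂ ht (C.dz₂ 0)
  have e1 := der_P C.D₂ ht (C.dz₂ (0 + 1))
  rw [← C.P_eq] at e1
  change C.D₂ (C.P 0) = _ at e0
  rw [C.br_P]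
  have a0 : C.q 0 / C.t 0 - C.t 0 ≠ 0 := by
    intro h
    apply C.q_ne_sq 0
    field_simp at h
    linear_combination h
  have a1 : C.q (0 + 1) / C.t 0 - C.t 0 ≠ 0 := by
    intro h
    apply C.q_ne_sq' 0
    field_simp at h
    linear_combination h
  refine mul_ne_zero a0 ?_
  unfold br
  rw [C.w₀₂, zero_mul, sub_zero]
  refine mul_ne_zero C.w₀₁ fun h => ?_
  rw [e0, C.w₀₂, h] at e1
  have : (C.q (0 + 1) / C.t 0 - C.t 0) * C.D₂ (C.w (0 + 1)) = 0 := by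
    linear_combination -e1
  exact mul_ne_zero a1 C.w₁₂ this

/-- The invariant density. -/
noncomputable def J : Ω := C.br (C.P 0) (C.t 0) / C.t 0

theorem J_ne : C.J ≠ 0 := div_ne_zero C.br_zero_ne (C.t_ne 0)

theorem br_eq (j : ℕ) : C.br (C.P j) (C.t j) = C.J * C.t j := by
  have : C.br (C.P j) (C.t j) / C.t j = C.J := by
    induction j with
    | zero => rfl
    | succ j ih => rw [C.inv_step, ih]
  rw [← this, div_mul_cancel₀ _ (C.t_ne j)]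

/-- First normalised derivation. -/
noncomputable def E₁ : Derivation ℤ Ω Ω :=
  (C.D₂ (C.t 0) / (C.J * C.t 0)) • C.D₁ - (C.D₁ (C.t 0) / (C.J * C.t 0)) • C.D₂

/-- Second normalised derivation. -/
noncomputable def E₂ : Derivation ℤ Ω Ω :=
  (C.D₁ (C.P 0) / C.J) • C.D₂ - (C.D₂ (C.P 0) / C.J) • C.D₁

theorem E₁_apply (f : Ω) : C.E₁ f =
    C.D₂ (C.t 0) / (C.J * C.t 0) * C.D₁ f - C.D₁ (C.t 0) / (C.J * C.t 0) * C.D₂ f := by
  simp [E₁]

theorem E₂_apply (f : Ω) : C.E₂ f =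
    C.D₁ (C.P 0) / C.J * C.D₂ f - C.D₂ (C.P 0) / C.J * C.D₁ f := by
  simp [E₂]

theorem br_E (f g : Ω) : C.E₁ f * C.E₂ g - C.E₂ f * C.E₁ g = C.br f g / C.J := by
  have h := C.br_eq 0
  have a := C.J_ne
  have b := C.t_ne 0
  unfold br at h ⊢
  simp only [E₁_apply, E₂_apply]
  field_simp
  linear_combination (C.D₁ f * C.D₂ g - C.D₂ f * C.D₁ g) * h

theorem E₁_t : C.E₁ (C.t 0) = 0 := by rw [E₁_apply]; ring

theorem E₂_P : C.E₂ (C.P 0) = 0 := by rw [E₂_apply]; ring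

theorem E₁_P : C.E₁ (C.P 0) = 1 := by
  have h := C.br_eq 0
  have a := C.J_ne
  have b := C.t_ne 0
  unfold br at h
  rw [E₁_apply]
  field_simp
  linear_combination h

theorem E₂_t : C.E₂ (C.t 0) = C.t 0 := by
  have h := C.br_eq 0
  have a := C.J_ne
  unfold br at h
  rw [E₂_apply]
  field_simp
  linear_combination h

theorem span_zero {α β : Ω} (h1 : α * C.D₁ (C.t 0) + β * C.D₂ (C.t 0) = 0)
    (h2 : α * C.D₁ (C.P 0) + β * C.D₂ (C.P 0) = 0) : α = 0 ∧ β = 0 := by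
  have h := C.br_zero_ne
  constructor
  · apply (mul_eq_zero.1 (show α * C.br (C.P 0) (C.t 0) = 0 from ?_)).resolve_right h
    unfold br
    linear_combination C.D₂ (C.t 0) * h2 - C.D₂ (C.P 0) * h1
  · apply (mul_eq_zero.1 (show β * C.br (C.P 0) (C.t 0) = 0 from ?_)).resolve_right h
    unfold br
    linear_combination C.D₁ (C.P 0) * h1 - C.D₁ (C.t 0) * h2

theorem E_comm (f : Ω) : C.E₁ (C.E₂ f) = C.E₂ (C.E₁ f) := by
  obtain ⟨a, ha⟩ : ∃ a, a = C.D₂ (C.t 0) / (C.J * C.t 0) := ⟨_, rfl⟩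
  obtain ⟨b, hb⟩ : ∃ b, b = C.D₁ (C.t 0) / (C.J * C.t 0) := ⟨_, rfl⟩
  obtain ⟨c, hc⟩ : ∃ c, c = C.D₁ (C.P 0) / C.J := ⟨_, rfl⟩
  obtain ⟨d, hd⟩ : ∃ d, d = C.D₂ (C.P 0) / C.J := ⟨_, rfl⟩
  have e1 : ∀ g, C.E₁ g = a * C.D₁ g - b * C.D₂ g := fun g => by rw [E₁_apply, ha, hb]
  have e2 : ∀ g, C.E₂ g = c * C.D₂ g - d * C.D₁ g := fun g => by rw [E₂_apply, hc, hd]
  have key : ∀ g, C.E₁ (C.E₂ g) - C.E₂ (C.E₁ g) =
      (-C.E₁ d - C.E₂ a) * C.D₁ g + (C.E₁ c + C.E₂ b) * C.D₂ g := by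
    intro g
    rw [e2 g, e1 g]
    simp only [map_sub, Derivation.leibniz, smul_eq_mul]
    rw [e1 (C.D₂ g), e1 (C.D₁ g), e2 (C.D₂ g), e2 (C.D₁ g), C.comm]
    ring
  have k1 := key (C.t 0)
  have k2 := key (C.P 0)
  rw [C.E₂_t, C.E₁_t, map_zero, sub_zero] at k1
  rw [C.E₂_P, C.E₁_P, map_zero, Derivation.map_one_eq_zero, sub_zero] at k2
  obtain ⟨z1, z2⟩ := C.span_zero k1.symm k2.symm
  have := key f
  rw [z1, z2] at this
  linear_combination this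

theorem E_const {f : Ω} (h1 : C.E₁ f = 0) (h2 : C.E₂ f = 0) : C.D₁ f = 0 ∧ C.D₂ f = 0 := by
  have a := C.br_E f (C.t 0)
  have b := C.br_E f (C.P 0)
  rw [h1, h2, zero_mul, zero_mul, sub_zero, eq_comm, div_eq_zero_iff] at a b
  have a' := a.resolve_right C.J_ne
  have b' := b.resolve_right C.J_ne
  unfold br at a' b'
  obtain ⟨z1, z2⟩ := C.span_zero (α := -C.D₂ f) (β := C.D₁ f) (by linear_combination a')
    (by linear_combination b')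
  exact ⟨z2, neg_eq_zero.1 z1⟩

/-- The normalised chain over the field of constants. -/
noncomputable def toClosed : Closed (consts C.D₁ C.D₂) Ω where
  ι := C.ι.codRestrict _ fun r => ⟨C.Dι₁ r, C.Dι₂ r⟩
  D₁ := overK C.E₁ fun a => by
    rw [E₁_apply]
    have h1 : C.D₁ (algebraMap _ Ω a) = 0 := a.2.1
    have h2 : C.D₂ (algebraMap _ Ω a) = 0 := a.2.2
    rw [h1, h2]; ring
  D₂ := overK C.E₂ fun a => by
    rw [E₂_apply]
    have h1 : C.D₁ (algebraMap _ Ω a) = 0 := a.2.1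
    have h2 : C.D₂ (algebraMap _ Ω a) = 0 := a.2.2
    rw [h1, h2]; ring
  τ := C.τ
  n := C.n
  t := C.t
  P := C.P
  z := C.z
  w := C.w
  q := C.q
  c := C.c
  comm := C.E_comm
  const := fun f h1 h2 => ⟨⟨f, C.E_const h1 h2⟩, rfl⟩
  ττ := C.ττ
  τk := fun a => ⟨⟨C.τ a, by
    constructor
    · rw [C.τD₁, a.2.1, map_zero]
    · rw [C.τD₂, a.2.2, map_zero]⟩, rfl⟩
  τι := C.τι
  t_ne := C.t_ne
  br := fun j => by
    simp only [overK_apply]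
    rw [C.br_E, C.br_eq, mul_div_cancel_left₀ _ C.J_ne]
  on₀ := fun _ => rfl
  on₁ := C.P_eq
  refl := C.refl
  dz₁ := fun j => by simp only [overK_apply, E₁_apply, C.dz₁, C.dz₂]; ring
  dz₂ := fun j => by simp only [overK_apply, E₂_apply, C.dz₁, C.dz₂]; ring
  dq₁ := fun j => by simp only [overK_apply, E₁_apply, C.dq₁, C.dq₂]; ring
  dq₂ := fun j => by simp only [overK_apply, E₂_apply, C.dq₁, C.dq₂]; ring
  c_ne := C.c_ne
  τz := C.τz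
  τt := C.τt
  z_ne := C.z_ne
  w_ne := C.w_ne
  pp := C.pp
  n_pos := C.n_pos
  t_per := C.t_per
  P_per := fun j => by unfold P; rw [C.z_per, C.t_per, C.w_per]
  z_per := C.z_per
  w_per := C.w_per
  q_per := C.q_per
  c_per := C.c_per

end Pre

theorem no_pre (H : NoClosed) {Ω : Type} [Field Ω] [CharZero Ω] [IsAlgClosed Ω] (C : Pre Ω) :
    False := by
  have := consts_closed C.D₁ C.D₂
  exact H _ Ω C.toClosed

end Ivrii.A0
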