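import Mathlib
import Pool.Agent.P.MP_7a8567_an.A0.Norm

set_option autoImplicit false

/-! Passage to the algebraic closure. -/

namespace Ivrii.A0

/-- Conjugate of a derivation by an involution. -/
def conjDer {Ω : Type} [Field Ω] (D : Derivation ℤ Ω Ω) (τ : Ω →+* Ω) (h : ∀ f, τ (τ f) = f) :
    Derivation ℤ Ω Ω :=
  Derivation.mk'
    (AddMonoidHom.toIntLinearMap
      { toFun := fun f => τ (D (τ f))
        map_zero' := by simp
        map_add' := fun a b => by simp })
    fun a b => by simp [h]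

theorem conjDer_apply {Ω : Type} [Field Ω] (D : Derivation ℤ Ω Ω) (τ : Ω →+* Ω)
    (h : ∀ f, τ (τ f) = f) (f : Ω) : conjDer D τ h f = τ (D (τ f)) := rfl

theorem no_pre_alg (H : NoClosed) {B Ω : Type} [Field B] [Field Ω] [Algebra B Ω] [CharZero B]
    [IsAlgClosed Ω] [Algebra.IsAlgebraic B Ω] (C : Pre B) (σ : Ω →+* Ω)
    (hσ : ∀ b, σ (algebraMap B Ω b) = algebraMap B Ω (C.τ b)) (hσσ : ∀ f, σ (σ f) = f)
    (hpp : ∀ (i j : ℕ) (a b : Ω), a ≠ 0 → b ≠ 0 →
      algebraMap B Ω (C.q (i + 1) * (C.t (i + 1) - C.t i) / C.c (i + 1)) * (a * σ a) +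
      algebraMap B Ω (C.q (j + 1) * (C.t (j + 1) - C.t j) / C.c (j + 1)) * (b * σ b) ≠ 0) :
    False := by
  have hc : CharZero Ω := charZero_of_injective_algebraMap (algebraMap B Ω).injective
  obtain ⟨D₁, h₁⟩ := der_ext (L := Ω) ((Algebra.linearMap B Ω).compDer C.D₁)
  obtain ⟨D₂, h₂⟩ := der_ext (L := Ω) ((Algebra.linearMap B Ω).compDer C.D₂)
  have e₁ : ∀ a, D₁ (algebraMap B Ω a) = algebraMap B Ω (C.D₁ a) := h₁
  have e₂ : ∀ a, D₂ (algebraMap B Ω a) = algebraMap B Ω (C.D₂ a) := h₂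
  have inj := (algebraMap B Ω).injective
  have hτ : ∀ (D : Derivation ℤ Ω Ω) (d : Derivation ℤ B B),
      (∀ a, D (algebraMap B Ω a) = algebraMap B Ω (d a)) → (∀ a, d (C.τ a) = C.τ (d a)) →
      ∀ f, D (σ f) = σ (D f) := by
    intro D d e hd f
    have := der_zero (K := B) (conjDer D σ hσσ - D) (fun a => by
      rw [Derivation.sub_apply, conjDer_apply, hσ, e, hσ, hd, C.ττ, e, sub_self])
      (Algebra.IsAlgebraic.isAlgebraic f)
    rw [Derivation.sub_apply, conjDer_apply, sub_eq_zero] at this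
    rw [← this, hσσ]
  refine no_pre H (Ω := Ω)
    { ι := (algebraMap B Ω).comp C.ι
      D₁ := D₁
      D₂ := D₂
      τ := σ
      n := C.n
      t := fun j => algebraMap B Ω (C.t j)
      z := fun j => algebraMap B Ω (C.z j)
      w := fun j => algebraMap B Ω (C.w j)
      q := fun j => algebraMap B Ω (C.q j)
      c := fun j => algebraMap B Ω (C.c j)
      comm := fun f => ?_
      τD₁ := hτ D₁ C.D₁ e₁ C.τD₁
      τD₂ := hτ D₂ C.D₂ e₂ C.τD₂
      ττ := hσσ
      Dι₁ := fun r => by rw [RingHom.comp_apply, e₁, C.Dι₁, map_zero]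
      Dι₂ := fun r => by rw [RingHom.comp_apply, e₂, C.Dι₂, map_zero]
      τι := fun r => by rw [RingHom.comp_apply, hσ, C.τι]
      t_ne := fun j => (map_ne_zero _).2 (C.t_ne j)
      chord := fun j => by rw [← map_sub, C.chord]; simp
      refl := fun j => by rw [C.refl, map_mul]
      dz₁ := fun j => by rw [e₁, e₁, C.dz₁, map_mul]
      dz₂ := fun j => by rw [e₂, e₂, C.dz₂, map_mul]
      dq₁ := fun j => by rw [e₁, e₁, C.dq₁, map_mul]
      dq₂ := fun j => by rw [e₂, e₂, C.dq₂, map_mul]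
      c_ne := fun j => (map_ne_zero _).2 (C.c_ne j)
      τz := fun j => by rw [hσ, C.τz]
      τt := fun j => by rw [hσ, C.τt, map_inv₀]
      z_ne := fun j h => C.z_ne j (inj h)
      pp := fun i j a b ha hb => by simpa using hpp i j a b ha hb
      n_pos := C.n_pos
      t_per := fun j => by rw [C.t_per]
      z_per := fun j => by rw [C.z_per]
      q_per := fun j => by rw [C.q_per]
      c_per := fun j => by rw [C.c_per]
      w₀₁ := by rw [e₁]; exact (map_ne_zero _).2 C.w₀₁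
      w₀₂ := by rw [e₂, C.w₀₂, map_zero]
      w₁₁ := by rw [e₁, C.w₁₁, map_zero]
      w₁₂ := by rw [e₂]; exact (map_ne_zero _).2 C.w₁₂ }
  have := der_zero (K := B) ⁅D₁, D₂⁆ (fun a => by
    rw [Derivation.commutator_apply, e₂, e₁, e₁, e₂, C.comm, sub_self])
    (Algebra.IsAlgebraic.isAlgebraic f)
  rwa [Derivation.commutator_apply, sub_eq_zero] at this

theorem no_pre_amb (H : NoClosed) {B G : Type} [Field B] [Field G] [Algebra B G] [CharZero B]
    [IsAlgClosed G] (C : Pre B) (σ : G →+* G)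
    (hσ : ∀ b, σ (algebraMap B G b) = algebraMap B G (C.τ b)) (hσσ : ∀ f, σ (σ f) = f)
    (hpp : ∀ (i j : ℕ) (a b : G), a ≠ 0 → b ≠ 0 →
      algebraMap B G (C.q (i + 1) * (C.t (i + 1) - C.t i) / C.c (i + 1)) * (a * σ a) +
      algebraMap B G (C.q (j + 1) * (C.t (j + 1) - C.t j) / C.c (j + 1)) * (b * σ b) ≠ 0) :
    False := by
  have hmem : ∀ x : algebraicClosure B G, σ x ∈ algebraicClosure B G := fun x =>
    mem_algebraicClosure_iff.2 ((mem_algebraicClosure_iff.1 x.2).ringHom_of_comp_eq C.τ σ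
      C.τ.injective (RingHom.ext fun b => (hσ b).symm))
  have : IsAlgClosed (algebraicClosure B G) := IsAlgClosure.isAlgClosed B
  let σ' : algebraicClosure B G →+* algebraicClosure B G :=
    (σ.comp (algebraicClosure B G).val.toRingHom).codRestrict (algebraicClosure B G) hmem
  have hv : ∀ x, ((σ' x : algebraicClosure B G) : G) = σ x := fun _ => rfl
  refine no_pre_alg H C σ' (fun b => Subtype.ext (hσ b)) (fun f => Subtype.ext (hσσ f))
    fun i j a b ha hb h => hpp i j a b (fun e => ha (Subtype.ext e)) (fun e => hb (Subtype.ext e)) ?_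
  exact congrArg Subtype.val h

end Ivrii.A0
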