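import Mathlib

set_option autoImplicit false

/-! The differential field of germs of smooth functions along an ultrafilter. -/

open Filter MeasureTheory Polynomial
open scoped ContDiff

namespace Ivrii.A0

theorem ae_fderiv_zero (f : ℝ × ℝ → ℂ) :
    ∀ᵐ p : ℝ × ℝ, ContDiffAt ℝ 1 f p → f p = 0 → fderiv ℝ f p = 0 := by
  let O : Set (ℝ × ℝ) := {p | ContDiffAt ℝ 1 f p}
  have hO : IsOpen O := isOpen_iff_eventually.2 fun p hp =>
    ContDiffAt.eventually (show ContDiffAt ℝ 1 f p from hp) (by simp)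
  have hc : ContinuousOn f O := fun p hp =>
    (ContDiffAt.continuousAt (show ContDiffAt ℝ 1 f p from hp)).continuousWithinAt
  have hO' : IsOpen (O ∩ f ⁻¹' {0}ᶜ) := hc.isOpen_inter_preimage hO isOpen_compl_singleton
  let s : Set (ℝ × ℝ) := O \ (O ∩ f ⁻¹' {0}ᶜ)
  have hs : MeasurableSet s := hO.measurableSet.diff hO'.measurableSet
  have hs0 : ∀ p ∈ s, f p = 0 := fun p hp => by
    by_contra h
    exact hp.2 ⟨hp.1, h⟩
  let e := Complex.equivRealProdCLM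
  have ha : ApproximatesLinearOn (e ∘ f) (0 : ℝ × ℝ →L[ℝ] ℝ × ℝ) s 0 := by
    intro x hx y hy
    simp [hs0 x hx, hs0 y hy]
  have h1 := ha.norm_fderiv_sub_le volume hs
    (fun p => (e : ℂ →L[ℝ] ℝ × ℝ).comp (fderiv ℝ f p)) fun p hp =>
      (e.hasFDerivAt.comp p
        ((ContDiffAt.differentiableAt (show ContDiffAt ℝ 1 f p from hp.1)
          (by simp)).hasFDerivAt)).hasFDerivWithinAt
  rw [ae_restrict_iff' hs] at h1
  filter_upwards [h1] with p hp h2 h3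
  have h4 := hp ⟨h2, fun h => h.2 h3⟩
  simp only [sub_zero, nonpos_iff_eq_zero, nnnorm_eq_zero] at h4
  ext1 <;> ext1 <;>
  · apply e.injective
    simpa using congrArg (fun A : ℝ × ℝ →L[ℝ] ℝ × ℝ => A _) h4

theorem germ_closed {α : Type} (U : Ultrafilter α) : IsAlgClosed (Germ (U : Filter α) ℂ) := by
  refine IsAlgClosed.of_exists_root _ fun p hm hp => ?_
  have hd : 0 < p.natDegree := hp.natDegree_pos
  have hrep : ∀ x : Germ (U : Filter α) ℂ, ∃ f : α → ℂ, (f : Germ (U : Filter α) ℂ) = x :=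
    fun x => Germ.inductionOn x fun f => ⟨f, rfl⟩
  choose a ha using fun i => hrep (p.coeff i)
  have hroot : ∀ x : α, ∃ r : ℂ,
      r ^ p.natDegree + ∑ i ∈ Finset.range p.natDegree, a i x * r ^ i = 0 := by
    intro x
    let Q : ℂ[X] := X ^ p.natDegree + ∑ i ∈ Finset.range p.natDegree, C (a i x) * X ^ i
    have hlt : (∑ i ∈ Finset.range p.natDegree, C (a i x) * X ^ i : ℂ[X]).degree <
        (p.natDegree : WithBot ℕ) := by
      refine (degree_sum_le _ _).trans_lt ?_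
      rw [Finset.sup_lt_iff (WithBot.bot_lt_coe _)]
      intro i hi
      exact (degree_C_mul_X_pow_le i _).trans_lt (by exact_mod_cast Finset.mem_range.1 hi)
    have hQ : Q.degree = p.natDegree := by
      simp only [Q]
      rw [degree_add_eq_left_of_degree_lt (by rwa [degree_X_pow]), degree_X_pow]
    obtain ⟨r, hr⟩ := IsAlgClosed.exists_root Q (by rw [hQ]; exact_mod_cast hd.ne')
    refine ⟨r, ?_⟩
    simpa [Q, IsRoot, eval_finsetSum] using hr
  choose r hr using hroot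
  refine ⟨(r : Germ (U : Filter α) ℂ), ?_⟩
  rw [eval_eq_sum_range, Finset.sum_range_succ, hm.coeff_natDegree, one_mul, add_comm]
  have : (Germ.coeRingHom (U : Filter α))
      (r ^ p.natDegree + ∑ i ∈ Finset.range p.natDegree, a i * r ^ i) = 0 := by
    rw [show r ^ p.natDegree + ∑ i ∈ Finset.range p.natDegree, a i * r ^ i = 0 from
      funext fun x => by simpa using hr x, map_zero]
  simpa [ha] using this

/-- Complex conjugation on germs. -/
noncomputable def gconj {α : Type} (U : Ultrafilter α) :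
    Germ (U : Filter α) ℂ →+* Germ (U : Filter α) ℂ where
  toFun := Germ.map (starRingEnd ℂ)
  map_one' := by
    change Germ.map _ ((1 : α → ℂ) : Germ (U : Filter α) ℂ) = ((1 : α → ℂ) : Germ (U : Filter α) ℂ)
    rw [Germ.map_coe]; congr 1; funext x; simp
  map_zero' := by
    change Germ.map _ ((0 : α → ℂ) : Germ (U : Filter α) ℂ) = ((0 : α → ℂ) : Germ (U : Filter α) ℂ)
    rw [Germ.map_coe]; congr 1; funext x; simp
  map_mul' := fun x y => Germ.inductionOn₂ x y fun f g => by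
    rw [← Germ.coe_mul, Germ.map_coe, Germ.map_coe, Germ.map_coe, ← Germ.coe_mul]
    congr 1; funext x; simp
  map_add' := fun x y => Germ.inductionOn₂ x y fun f g => by
    rw [← Germ.coe_add, Germ.map_coe, Germ.map_coe, Germ.map_coe, ← Germ.coe_add]
    congr 1; funext x; simp

theorem gconj_coe {α : Type} (U : Ultrafilter α) (f : α → ℂ) :
    gconj U (f : Germ (U : Filter α) ℂ) = (fun x => (starRingEnd ℂ) (f x) : α → ℂ) := rfl

theorem gconj_gconj {α : Type} (U : Ultrafilter α) (x : Germ (U : Filter α) ℂ) :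
    gconj U (gconj U x) = x :=
  Germ.inductionOn x fun f => by rw [gconj_coe, gconj_coe]; simp

theorem coe_ne_zero {α : Type} (U : Ultrafilter α) (f : α → ℂ) :
    (f : Germ (U : Filter α) ℂ) ≠ 0 ↔ ∀ᶠ x in (U : Filter α), f x ≠ 0 := by
  rw [Ultrafilter.eventually_not, ← Germ.coe_zero, Ne, Germ.coe_eq]
  rfl

/-- Smooth at almost every point of the ultrafilter. -/
def Sm (U : Ultrafilter (ℝ × ℝ)) (f : ℝ × ℝ → ℂ) : Prop :=
  ∀ᶠ p in (U : Filter (ℝ × ℝ)), ContDiffAt ℝ ∞ f p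

/-- Directional derivative. -/
noncomputable def pd (v : ℝ × ℝ) (f : ℝ × ℝ → ℂ) : ℝ × ℝ → ℂ := fun p => fderiv ℝ f p v

theorem smooth_pd {f : ℝ × ℝ → ℂ} {p : ℝ × ℝ} (h : ContDiffAt ℝ ∞ f p) (v : ℝ × ℝ) :
    ContDiffAt ℝ ∞ (pd v f) p :=
  (h.fderiv_right (m := ∞) (by simp)).clm_apply contDiffAt_const

theorem smooth_conj {f : ℝ × ℝ → ℂ} {p : ℝ × ℝ} (h : ContDiffAt ℝ ∞ f p) :
    ContDiffAt ℝ ∞ (fun x => (starRingEnd ℂ) (f x)) p :=
  (Complex.conjCLE.contDiff.contDiffAt).comp p h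

theorem pd_conj {f : ℝ × ℝ → ℂ} {p : ℝ × ℝ} (h : ContDiffAt ℝ ∞ f p) (v : ℝ × ℝ) :
    pd v (fun x => (starRingEnd ℂ) (f x)) p = (starRingEnd ℂ) (pd v f p) := by
  have := (Complex.conjCLE.hasFDerivAt.comp p (h.differentiableAt (by simp)).hasFDerivAt).fderiv
  unfold pd
  change fderiv ℝ (Complex.conjCLE ∘ f) p v = _
  rw [this]
  simp

theorem pd_comm {f : ℝ × ℝ → ℂ} {p : ℝ × ℝ} (h : ContDiffAt ℝ ∞ f p) (v w : ℝ × ℝ) :
    pd v (pd w f) p = pd w (pd v f) p := by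
  have hs := h.isSymmSndFDerivAt (by
    rw [minSmoothness_of_isRCLikeNormedField]
    exact WithTop.coe_le_coe.2 (le_top (a := (2 : ℕ∞))))
  have hd : DifferentiableAt ℝ (fderiv ℝ f) p :=
    (h.fderiv_right (m := ∞) (by simp)).differentiableAt (by simp)
  have e : ∀ a b : ℝ × ℝ, pd a (pd b f) p = fderiv ℝ (fderiv ℝ f) p a b := by
    intro a b
    unfold pd
    rw [fderiv_clm_apply hd (differentiableAt_const b)]
    simp
  rw [e, e, hs.eq]

theorem Sm.pd {U : Ultrafilter (ℝ × ℝ)} {f : ℝ × ℝ → ℂ} (h : Sm U f) (v : ℝ × ℝ) :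
    Sm U (pd v f) := h.mono fun _ hp => smooth_pd hp v

theorem Sm.conj {U : Ultrafilter (ℝ × ℝ)} {f : ℝ × ℝ → ℂ} (h : Sm U f) :
    Sm U (fun x => (starRingEnd ℂ) (f x)) := h.mono fun _ hp => smooth_conj hp

theorem Sm.add {U : Ultrafilter (ℝ × ℝ)} {f g : ℝ × ℝ → ℂ} (h : Sm U f) (h' : Sm U g) :
    Sm U (f + g) := (h.and h').mono fun _ hp => hp.1.add hp.2

theorem Sm.mul {U : Ultrafilter (ℝ × ℝ)} {f g : ℝ × ℝ → ℂ} (h : Sm U f) (h' : Sm U g) :
    Sm U (f * g) := (h.and h').mono fun _ hp => hp.1.mul hp.2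

theorem Sm.const (U : Ultrafilter (ℝ × ℝ)) (a : ℂ) : Sm U (fun _ => a) :=
  Eventually.of_forall fun _ => contDiffAt_const

theorem pd_congr {U : Ultrafilter (ℝ × ℝ)} (hU : (U : Filter (ℝ × ℝ)) ≤ ae volume)
    {f g : ℝ × ℝ → ℂ} (hf : Sm U f) (hg : Sm U g) (h : f =ᶠ[(U : Filter (ℝ × ℝ))] g)
    (v : ℝ × ℝ) : pd v f =ᶠ[(U : Filter (ℝ × ℝ))] pd v g := by
  filter_upwards [hf, hg, h, hU (ae_fderiv_zero (f - g))] with p h1 h2 h3 h4
  have h5 := h4 ((h1.sub h2).of_le (by exact_mod_cast le_top)) (by simp [h3])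
  rw [fderiv_sub (h1.differentiableAt (by simp)) (h2.differentiableAt (by simp)),
    sub_eq_zero] at h5
  unfold pd
  rw [h5]

/-- The field of germs of smooth functions. -/
def smF (U : Ultrafilter (ℝ × ℝ)) : Subfield (Germ (U : Filter (ℝ × ℝ)) ℂ) where
  carrier := {x | ∃ f : ℝ × ℝ → ℂ, Sm U f ∧ (f : Germ (U : Filter (ℝ × ℝ)) ℂ) = x}
  mul_mem' := by
    rintro _ _ ⟨f, hf, rfl⟩ ⟨g, hg, rfl⟩
    exact ⟨f * g, hf.mul hg, rfl⟩
  one_mem' := ⟨fun _ => 1, Sm.const U 1, rfl⟩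
  add_mem' := by
    rintro _ _ ⟨f, hf, rfl⟩ ⟨g, hg, rfl⟩
    exact ⟨f + g, hf.add hg, rfl⟩
  zero_mem' := ⟨fun _ => 0, Sm.const U 0, rfl⟩
  neg_mem' := by
    rintro _ ⟨f, hf, rfl⟩
    exact ⟨-f, hf.mono fun _ hp => hp.neg, rfl⟩
  inv_mem' := by
    rintro _ ⟨f, hf, rfl⟩
    by_cases h : (f : Germ (U : Filter (ℝ × ℝ)) ℂ) = 0
    · rw [h, inv_zero]
      exact ⟨fun _ => 0, Sm.const U 0, rfl⟩
    · exact ⟨f⁻¹, (hf.and ((coe_ne_zero U f).1 h)).mono fun _ hp => hp.1.inv hp.2, rfl⟩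

/-- The germ of a smooth function. -/
def mk {U : Ultrafilter (ℝ × ℝ)} (f : ℝ × ℝ → ℂ) (h : Sm U f) : smF U := ⟨f, f, h, rfl⟩

theorem mk_eq {U : Ultrafilter (ℝ × ℝ)} {f g : ℝ × ℝ → ℂ} (hf : Sm U f) (hg : Sm U g) :
    mk f hf = mk g hg ↔ f =ᶠ[(U : Filter (ℝ × ℝ))] g := by
  rw [Subtype.ext_iff]
  exact Germ.coe_eq

theorem mk_surj {U : Ultrafilter (ℝ × ℝ)} (x : smF U) : ∃ f h, mk f h = x := by
  obtain ⟨_, f, h, rfl⟩ := x
  exact ⟨f, h, rfl⟩

theorem mk_add {U : Ultrafilter (ℝ × ℝ)} {f g : ℝ × ℝ → ℂ} (hf : Sm U f) (hg : Sm U g) :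
    mk f hf + mk g hg = mk (f + g) (hf.add hg) := rfl

theorem mk_mul {U : Ultrafilter (ℝ × ℝ)} {f g : ℝ × ℝ → ℂ} (hf : Sm U f) (hg : Sm U g) :
    mk f hf * mk g hg = mk (f * g) (hf.mul hg) := rfl

/-- The derivative of a germ. -/
noncomputable def derF {U : Ultrafilter (ℝ × ℝ)} (v : ℝ × ℝ) (x : smF U) : smF U :=
  mk (pd v x.2.choose) (x.2.choose_spec.1.pd v)

theorem derF_mk {U : Ultrafilter (ℝ × ℝ)} (hU : (U : Filter (ℝ × ℝ)) ≤ ae volume) (v : ℝ × ℝ)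
    {f : ℝ × ℝ → ℂ} (h : Sm U f) : derF v (mk f h) = mk (pd v f) (h.pd v) := by
  unfold derF
  rw [mk_eq]
  exact pd_congr hU (mk f h).2.choose_spec.1 h (Germ.coe_eq.1 (mk f h).2.choose_spec.2) v

/-- The derivative of germs as a derivation. -/
noncomputable def der {U : Ultrafilter (ℝ × ℝ)} (hU : (U : Filter (ℝ × ℝ)) ≤ ae volume)
    (v : ℝ × ℝ) : Derivation ℤ (smF U) (smF U) :=
  Derivation.mk'
    (AddMonoidHom.toIntLinearMap (AddMonoidHom.mk' (derF v) fun x y => by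
      obtain ⟨f, hf, rfl⟩ := mk_surj x
      obtain ⟨g, hg, rfl⟩ := mk_surj y
      rw [mk_add, derF_mk hU, derF_mk hU, derF_mk hU, mk_add, mk_eq]
      filter_upwards [hf, hg] with p h1 h2
      simp only [pd, Pi.add_apply]
      rw [fderiv_add (h1.differentiableAt (by simp)) (h2.differentiableAt (by simp))]
      rfl))
    fun x y => by
      obtain ⟨f, hf, rfl⟩ := mk_surj x
      obtain ⟨g, hg, rfl⟩ := mk_surj y
      change derF v _ = _ * derF v _ + _ * derF v _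
      rw [mk_mul, derF_mk hU, derF_mk hU, derF_mk hU, mk_mul, mk_mul, mk_add, mk_eq]
      filter_upwards [hf, hg] with p h1 h2
      simp only [pd, Pi.add_apply, Pi.mul_apply]
      rw [fderiv_mul (h1.differentiableAt (by simp)) (h2.differentiableAt (by simp))]
      simp

theorem der_mk {U : Ultrafilter (ℝ × ℝ)} (hU : (U : Filter (ℝ × ℝ)) ≤ ae volume) (v : ℝ × ℝ)
    {f : ℝ × ℝ → ℂ} (h : Sm U f) : der hU v (mk f h) = mk (pd v f) (h.pd v) :=
  derF_mk hU v h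

/-- Conjugation on the field of smooth germs. -/
noncomputable def sconj (U : Ultrafilter (ℝ × ℝ)) : smF U →+* smF U :=
  ((gconj U).comp (smF U).subtype).codRestrict (smF U) fun x => by
    obtain ⟨f, hf, rfl⟩ := mk_surj x
    exact ⟨_, hf.conj, rfl⟩

theorem sconj_mk {U : Ultrafilter (ℝ × ℝ)} {f : ℝ × ℝ → ℂ} (h : Sm U f) :
    sconj U (mk f h) = mk (fun x => (starRingEnd ℂ) (f x)) h.conj := rfl

/-- Real constants. -/
noncomputable def sreal (U : Ultrafilter (ℝ × ℝ)) : ℝ →+* smF U :=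
  ((Germ.coeRingHom (U : Filter (ℝ × ℝ))).comp
    ((Pi.constRingHom (ℝ × ℝ) ℂ).comp Complex.ofRealHom)).codRestrict (smF U)
    fun r => ⟨fun _ => (r : ℂ), Sm.const U _, rfl⟩

theorem sreal_eq (U : Ultrafilter (ℝ × ℝ)) (r : ℝ) :
    sreal U r = mk (fun _ => (r : ℂ)) (Sm.const U _) := rfl

end Ivrii.A0
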