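import Mathlib
import Pool.Agent.P.MP_7a8567_an.A0.Clo
import Pool.Agent.P.MP_7a8567_an.A0.Germ

set_option autoImplicit false

/-! From pointwise data on a set of positive measure to a chain in a differential field. -/

open Filter MeasureTheory
open scoped ContDiff

namespace Ivrii.A0

/-- Pointwise data on a set that is not null. -/
structure Fn where
  E : Set (ℝ × ℝ)
  n : ℕ
  t : ℕ → ℝ × ℝ → ℂ
  z : ℕ → ℝ × ℝ → ℂ
  w : ℕ → ℝ × ℝ → ℂ
  q : ℕ → ℝ × ℝ → ℂ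
  c : ℕ → ℝ × ℝ → ℂ
  vol : volume E ≠ 0
  st : ∀ j, ∀ p ∈ E, ContDiffAt ℝ ∞ (t j) p
  sz : ∀ j, ∀ p ∈ E, ContDiffAt ℝ ∞ (z j) p
  sw : ∀ j, ∀ p ∈ E, ContDiffAt ℝ ∞ (w j) p
  sq : ∀ j, ∀ p ∈ E, ContDiffAt ℝ ∞ (q j) p
  sc : ∀ j, ∀ p ∈ E, ContDiffAt ℝ ∞ (c j) p
  t_ne : ∀ j, ∀ p ∈ E, t j p ≠ 0
  chord : ∀ j, ∀ p ∈ E, z (j + 1) p - z j p = t j p ^ 2 * (w (j + 1) p - w j p)
  refl : ∀ j, ∀ p ∈ E, q (j + 1) p = t j p * t (j + 1) p
  dz : ∀ j v, ∀ p ∈ E, pd v (z j) p = q j p * pd v (w j) p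
  dq : ∀ j v, ∀ p ∈ E, pd v (q j) p = c j p * pd v (w j) p
  c_ne : ∀ j, ∀ p ∈ E, c j p ≠ 0
  τz : ∀ j, ∀ p ∈ E, (starRingEnd ℂ) (z j p) = w j p
  τt : ∀ j, ∀ p ∈ E, (starRingEnd ℂ) (t j p) = (t j p)⁻¹
  z_ne : ∀ j, ∀ p ∈ E, z j p ≠ z (j + 1) p
  th : ∀ j, ∀ p ∈ E, ∃ r : ℝ, 0 < r ∧ q (j + 1) p * (t (j + 1) p - t j p) / c (j + 1) p = r
  n_pos : 1 ≤ n
  t_per : ∀ j, ∀ p ∈ E, t (j + n) p = t j p
  z_per : ∀ j, ∀ p ∈ E, z (j + n) p = z j p
  q_per : ∀ j, ∀ p ∈ E, q (j + n) p = q j p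
  c_per : ∀ j, ∀ p ∈ E, c (j + n) p = c j p
  w₀₁ : ∀ p ∈ E, pd (1, 0) (w 0) p ≠ 0
  w₀₂ : ∀ p ∈ E, pd (0, 1) (w 0) p = 0
  w₁₁ : ∀ p ∈ E, pd (1, 0) (w 1) p = 0
  w₁₂ : ∀ p ∈ E, pd (0, 1) (w 1) p ≠ 0

theorem mk_ne_zero {U : Ultrafilter (ℝ × ℝ)} {f : ℝ × ℝ → ℂ} (h : Sm U f)
    (h0 : ∀ᶠ p in (U : Filter (ℝ × ℝ)), f p ≠ 0) : mk f h ≠ 0 := fun e =>
  (coe_ne_zero U f).2 h0 (congrArg Subtype.val e)

theorem germ_pp {α : Type} (U : Ultrafilter α) {f g : α → ℂ}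
    (hf : ∀ᶠ p in (U : Filter α), ∃ r : ℝ, 0 < r ∧ f p = r)
    (hg : ∀ᶠ p in (U : Filter α), ∃ r : ℝ, 0 < r ∧ g p = r)
    {a b : Germ (U : Filter α) ℂ} (ha : a ≠ 0) (hb : b ≠ 0) :
    (f : Germ (U : Filter α) ℂ) * (a * gconj U a) + (g : Germ (U : Filter α) ℂ) * (b * gconj U b)
      ≠ 0 := by
  induction a using Germ.inductionOn with | _ a => ?_
  induction b using Germ.inductionOn with | _ b => ?_
  rw [gconj_coe, gconj_coe, ← Germ.coe_mul, ← Germ.coe_mul, ← Germ.coe_mul, ← Germ.coe_mul,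
    ← Germ.coe_add, coe_ne_zero]
  filter_upwards [hf, hg, (coe_ne_zero U a).1 ha, (coe_ne_zero U b).1 hb] with p h1 h2 h3 h4
  obtain ⟨r, hr, e1⟩ := h1
  obtain ⟨s, hs, e2⟩ := h2
  simp only [Pi.add_apply, Pi.mul_apply, e1, e2, Complex.mul_conj]
  have := add_pos (mul_pos hr (Complex.normSq_pos.2 h3)) (mul_pos hs (Complex.normSq_pos.2 h4))
  exact_mod_cast this.ne'

theorem no_fn (H : NoClosed) (F : Fn) : False := by
  have hne : (ae (volume : Measure (ℝ × ℝ)) ⊓ 𝓟 F.E).NeBot :=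
    frequently_iff_neBot.1 (frequently_ae_mem_iff.2 F.vol)
  let U : Ultrafilter (ℝ × ℝ) := Ultrafilter.of (ae volume ⊓ 𝓟 F.E)
  have hU : (U : Filter (ℝ × ℝ)) ≤ ae volume := (Ultrafilter.of_le _).trans inf_le_left
  have hE : ∀ᶠ p in (U : Filter (ℝ × ℝ)), p ∈ F.E :=
    le_principal_iff.1 ((Ultrafilter.of_le _).trans inf_le_right)
  have ev : ∀ {Q : ℝ × ℝ → Prop}, (∀ p ∈ F.E, Q p) → ∀ᶠ p in (U : Filter (ℝ × ℝ)), Q p :=
    fun h => hE.mono h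
  have st : ∀ j, Sm U (F.t j) := fun j => ev (F.st j)
  have sz : ∀ j, Sm U (F.z j) := fun j => ev (F.sz j)
  have sw : ∀ j, Sm U (F.w j) := fun j => ev (F.sw j)
  have sq : ∀ j, Sm U (F.q j) := fun j => ev (F.sq j)
  have sc : ∀ j, Sm U (F.c j) := fun j => ev (F.sc j)
  have := germ_closed U
  have hcz : CharZero (smF U) := charZero_of_injective_ringHom (sreal U).injective
  have hth : ∀ j, ((mk (F.q (j + 1)) (sq _) * (mk (F.t (j + 1)) (st _) - mk (F.t j) (st _)) /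
      mk (F.c (j + 1)) (sc _) : smF U) : Germ (U : Filter (ℝ × ℝ)) ℂ) =
      (fun p => F.q (j + 1) p * (F.t (j + 1) p - F.t j p) / F.c (j + 1) p : ℝ × ℝ → ℂ) :=
    fun j => rfl
  have hd : ∀ (v : ℝ × ℝ) (x : smF U), der hU v (sconj U x) = sconj U (der hU v x) := by
    intro v x
    obtain ⟨f, hf, rfl⟩ := mk_surj x
    rw [sconj_mk, der_mk, der_mk, sconj_mk, mk_eq]
    exact hf.mono fun p hp => pd_conj hp v
  have hr : ∀ (v : ℝ × ℝ) (r : ℝ), der hU v (sreal U r) = 0 := by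
    intro v r
    rw [sreal_eq, der_mk]
    exact (mk_eq _ (Sm.const U 0)).2 (Eventually.of_forall fun p => by simp [pd])
  refine no_pre_amb H (G := Germ (U : Filter (ℝ × ℝ)) ℂ) (B := smF U)
    { ι := sreal U
      D₁ := der hU (1, 0)
      D₂ := der hU (0, 1)
      τ := sconj U
      n := F.n
      t := fun j => mk (F.t j) (st j)
      z := fun j => mk (F.z j) (sz j)
      w := fun j => mk (F.w j) (sw j)
      q := fun j => mk (F.q j) (sq j)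
      c := fun j => mk (F.c j) (sc j)
      comm := fun x => ?_
      τD₁ := hd _
      τD₂ := hd _
      ττ := fun x => Subtype.ext (gconj_gconj U x)
      Dι₁ := hr _
      Dι₂ := hr _
      τι := fun r => by
        rw [sreal_eq, sconj_mk, mk_eq]
        exact Eventually.of_forall fun p => by simp
      t_ne := fun j => mk_ne_zero _ (ev (F.t_ne j))
      chord := fun j => Subtype.ext (Germ.coe_eq.2 (ev (F.chord j)))
      refl := fun j => Subtype.ext (Germ.coe_eq.2 (ev (F.refl j)))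
      dz₁ := fun j => by
        rw [der_mk, der_mk]; exact Subtype.ext (Germ.coe_eq.2 (ev (F.dz j _)))
      dz₂ := fun j => by
        rw [der_mk, der_mk]; exact Subtype.ext (Germ.coe_eq.2 (ev (F.dz j _)))
      dq₁ := fun j => by
        rw [der_mk, der_mk]; exact Subtype.ext (Germ.coe_eq.2 (ev (F.dq j _)))
      dq₂ := fun j => by
        rw [der_mk, der_mk]; exact Subtype.ext (Germ.coe_eq.2 (ev (F.dq j _)))
      c_ne := fun j => mk_ne_zero _ (ev (F.c_ne j))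
      τz := fun j => Subtype.ext (Germ.coe_eq.2 (ev (F.τz j)))
      τt := fun j => Subtype.ext (Germ.coe_eq.2 (ev (F.τt j)))
      z_ne := fun j h => ?_
      pp := fun i j a b ha hb h => ?_
      n_pos := F.n_pos
      t_per := fun j => Subtype.ext (Germ.coe_eq.2 (ev (F.t_per j)))
      z_per := fun j => Subtype.ext (Germ.coe_eq.2 (ev (F.z_per j)))
      q_per := fun j => Subtype.ext (Germ.coe_eq.2 (ev (F.q_per j)))
      c_per := fun j => Subtype.ext (Germ.coe_eq.2 (ev (F.c_per j)))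
      w₀₁ := by rw [der_mk]; exact mk_ne_zero _ (ev F.w₀₁)
      w₀₂ := by rw [der_mk]; exact Subtype.ext (Germ.coe_eq.2 (ev F.w₀₂))
      w₁₁ := by rw [der_mk]; exact Subtype.ext (Germ.coe_eq.2 (ev F.w₁₁))
      w₁₂ := by rw [der_mk]; exact mk_ne_zero _ (ev F.w₁₂) }
    (gconj U) (fun _ => rfl) (gconj_gconj U) fun i j a b ha hb => ?_
  · obtain ⟨f, hf, rfl⟩ := mk_surj x
    rw [der_mk, der_mk, der_mk, der_mk, mk_eq]
    exact hf.mono fun p hp => pd_comm hp _ _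
  · obtain ⟨p, h1, h2⟩ := (((mk_eq _ _).1 h).and (ev (F.z_ne j))).exists
    exact h2 h1
  · exact germ_pp U (ev (F.th i)) (ev (F.th j)) (a := a) (b := b)
      (fun e => ha (Subtype.ext e)) (fun e => hb (Subtype.ext e)) (congrArg Subtype.val h)
  · exact germ_pp U (ev (F.th i)) (ev (F.th j)) ha hb

end Ivrii.A0
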