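import Mathlib
import Pool.Agent.P.MP_7a8567_an.A0.Bill
import Pool.Agent.P.MP_7a8567_an.A0.Fn

set_option autoImplicit false

/-! The reduction: if no periodic chain exists then periodic points form a null set. -/

open Complex Set Filter MeasureTheory
open scoped ContDiff Topology

namespace Ivrii.A0

variable {g : ℝ → ℂ}

theorem pd_comp {φ : ℝ → ℂ} {φ' : ℂ} {X : ℝ × ℝ → ℝ} {p : ℝ × ℝ} (hφ : HasDerivAt φ φ' (X p))
    (hX : ContDiffAt ℝ ∞ X p) (v : ℝ × ℝ) :
    pd v (fun x => φ (X x)) p = φ' * ((fderiv ℝ X p v : ℝ) : ℂ) := by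
  have := (hφ.hasFDerivAt.comp p (hX.differentiableAt (by simp)).hasFDerivAt).fderiv
  unfold pd
  change fderiv ℝ (φ ∘ X) p v = _
  rw [this]
  simp [mul_comm]

theorem Oval.hd_conj (h : Oval g) (s : ℝ) :
    HasDerivAt (fun u => (starRingEnd ℂ) (g u)) ((starRingEnd ℂ) (deriv g s)) s :=
  conjCLE.hasFDerivAt.comp_hasDerivAt s (h.hd s)

theorem Oval.hd_conj' (h : Oval g) (s : ℝ) :
    HasDerivAt (fun u => (starRingEnd ℂ) (deriv g u)) ((starRingEnd ℂ) (deriv (deriv g) s)) s :=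
  conjCLE.hasFDerivAt.comp_hasDerivAt s (h.hd' s)

theorem Oval.cd_ne (h : Oval g) (s : ℝ) : (starRingEnd ℂ) (deriv g s) ≠ 0 :=
  (map_ne_zero _).2 (h.d_ne s)

/-- Square of the unit tangent. -/
noncomputable def qf (g : ℝ → ℂ) (s : ℝ) : ℂ := deriv g s / (starRingEnd ℂ) (deriv g s)

/-- Derivative of `qf` with respect to the conjugate coordinate. -/
noncomputable def cf (g : ℝ → ℂ) (s : ℝ) : ℂ :=
  (deriv (deriv g) s * (starRingEnd ℂ) (deriv g s) -
    deriv g s * (starRingEnd ℂ) (deriv (deriv g) s)) / (starRingEnd ℂ) (deriv g s) ^ 3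

theorem Oval.hd_qf (h : Oval g) (s : ℝ) :
    HasDerivAt (qf g) (cf g s * (starRingEnd ℂ) (deriv g s)) s := by
  have h1 := (h.hd' s).div (h.hd_conj' s) (h.cd_ne s)
  have h2 := h.cd_ne s
  have e : cf g s * (starRingEnd ℂ) (deriv g s) =
      (deriv (deriv g) s * (starRingEnd ℂ) (deriv g s) -
        deriv g s * (starRingEnd ℂ) (deriv (deriv g) s)) / (starRingEnd ℂ) (deriv g s) ^ 2 := by
    unfold cf
    field_simp
  rw [e]
  exact h1

theorem cf_eq (g : ℝ → ℂ) (s : ℝ) : cf g s =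
    ((2 * ((starRingEnd ℂ) (deriv g s) * deriv (deriv g) s).im : ℝ) : ℂ) * I /
      (starRingEnd ℂ) (deriv g s) ^ 3 := by
  rw [← sub_conj, cf]
  simp [mul_comm]

theorem Oval.cf_ne (h : Oval g) (s : ℝ) : cf g s ≠ 0 := by
  rw [cf_eq]
  refine div_ne_zero (mul_ne_zero ?_ I_ne_zero) (pow_ne_zero _ (h.cd_ne s))
  exact ofReal_ne_zero.2 (mul_pos two_pos (h.curv s)).ne'

theorem Oval.smooth_qf (h : Oval g) : ContDiff ℝ ∞ (qf g) := by
  have h1 : ContDiff ℝ ∞ fun s => (starRingEnd ℂ) (deriv g s) := conjCLE.contDiff.comp h.smooth'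
  have h2 := h.smooth'.mul (h1.inv h.cd_ne)
  unfold qf
  simpa only [div_eq_mul_inv, Pi.inv_apply] using h2

theorem Oval.smooth_cf (h : Oval g) : ContDiff ℝ ∞ (cf g) := by
  have h1 : ContDiff ℝ ∞ fun s => (starRingEnd ℂ) (deriv g s) := conjCLE.contDiff.comp h.smooth'
  have h2 : ContDiff ℝ ∞ fun s => (starRingEnd ℂ) (deriv (deriv g) s) :=
    conjCLE.contDiff.comp h.smooth''
  have h3 := ((h.smooth''.mul h1).sub (h.smooth'.mul h2)).mul
    ((h1.pow 3).inv fun s => pow_ne_zero 3 (h.cd_ne s))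
  unfold cf
  simpa only [div_eq_mul_inv, Pi.inv_apply] using h3

theorem Oval.qf_shift (h : Oval g) (s : ℝ) (k : ℤ) : qf g (s + k) = qf g s := by
  simp only [qf, h.perZ']

theorem Oval.cf_shift (h : Oval g) (s : ℝ) (k : ℤ) : cf g (s + k) = cf g s := by
  simp only [cf, h.perZ', h.perZ'']

theorem Oval.dir_ne (h : Oval g) {s r : ℝ} (hf : Far s r) : dir g s r ≠ 0 := by
  intro e
  have := h.normSq_dir hf
  simp [e] at this

theorem Oval.conj_dir (h : Oval g) {s r : ℝ} (hf : Far s r) :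
    (starRingEnd ℂ) (dir g s r) = (dir g s r)⁻¹ := by
  apply eq_inv_of_mul_eq_one_right
  rw [mul_conj, h.normSq_dir hf, ofReal_one]

theorem Oval.chord_dir (h : Oval g) {s r : ℝ} (hf : Far s r) :
    g r - g s = dir g s r ^ 2 * ((starRingEnd ℂ) (g r) - (starRingEnd ℂ) (g s)) := by
  have h0 : ((‖g r - g s‖ : ℝ) : ℂ) ≠ 0 := by exact_mod_cast norm_ne_zero_iff.2 (h.sub_ne hf)
  have h1 : (g r - g s) * (starRingEnd ℂ) (g r - g s) = ((‖g r - g s‖ : ℝ) : ℂ) ^ 2 := by
    rw [mul_conj, normSq_eq_norm_sq, ofReal_pow]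
  rw [← map_sub, dir]
  field_simp
  linear_combination -(g r - g s) * h1

theorem Oval.refl_dir (h : Oval g) {s r u : ℝ} (h1 : Far s r) (h2 : Far r u)
    (e : cosOut g r u = cosIn g s r) : qf g r = dir g s r * dir g r u := by
  have a := h.reflect h1 h2 e
  rw [h.conj_dir h1] at a
  have b := h.dir_ne h1
  have c := h.cd_ne r
  unfold qf
  field_simp at a ⊢
  linear_combination -a

theorem Oval.th_pos (h : Oval g) {s r u : ℝ} (h1 : Far s r) (h2 : Far r u)
    (e : cosOut g r u = cosIn g s r) :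
    ∃ ρ : ℝ, 0 < ρ ∧ qf g r * (dir g r u - dir g s r) / cf g r = ρ := by
  have a := h.reflect h1 h2 e
  have b := h.im_in h1
  have c := h.cd_ne r
  have d := h.curv r
  have f := sub_conj ((starRingEnd ℂ) (deriv g r) * dir g s r)
  rw [cf_eq]
  set κ := ((starRingEnd ℂ) (deriv g r) * deriv (deriv g) r).im
  set μ := ((starRingEnd ℂ) (deriv g r) * dir g s r).im
  refine ⟨normSq (deriv g r) * -μ / κ,
    div_pos (mul_pos (normSq_pos.2 (h.d_ne r)) (by linarith)) d, ?_⟩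
  have hκ : (κ : ℂ) ≠ 0 := ofReal_ne_zero.2 d.ne'
  simp only [map_mul, conj_conj] at f
  push_cast at f ⊢
  rw [← mul_conj]
  unfold qf
  field_simp
  linear_combination deriv g r * (a - f)

/-- Initial data of orbits that return after `n` bounces. -/
def Per (g : ℝ → ℂ) (n : ℕ) : Set (ℝ × ℝ) :=
  {p | ∃ x : ℕ → ℝ, Orbit g x ∧ x 0 = p.1 ∧ x 1 = p.2 ∧
    ∃ k m : ℤ, x n = p.1 + k ∧ x (n + 1) = p.2 + m}

/-- Parameter of the bounce number `j`. -/
noncomputable def X (g : ℝ → ℂ) (j : ℕ) (p : ℝ × ℝ) : ℝ := (iter g j p).1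

theorem Oval.X_spec (h : Oval g) {n : ℕ} {p : ℝ × ℝ} (hp : p ∈ Per g n) :
    Orbit g (fun j => X g j p) ∧ (∀ j, ContDiffAt ℝ ∞ (X g j) p) ∧
      ∀ j, ∃ a : ℤ, X g (j + n) p = X g j p + a := by
  obtain ⟨x, o, h0, h1, k, m, hk, hm⟩ := hp
  have ep : p = (x 0, x 1) := Prod.ext h0.symm h1.symm
  have ha : ∀ j, ∃ a : ℤ, X g j p = x j + a := fun j => by
    obtain ⟨a, b, e⟩ := (h.iter_spec o j).1
    exact ⟨a, by rw [ep, X, e]⟩
  choose a ha using ha
  refine ⟨⟨fun i => ?_, fun i => ?_⟩, fun j => ?_, fun j => ?_⟩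
  · simp only [ha]
    exact (o.far i).shift _ _
  · simp only [ha]
    rw [h.cosOut_shift, h.cosIn_shift, o.law]
  · rw [ep]
    exact contDiffAt_fst.comp _ (h.iter_spec o j).2
  · obtain ⟨b, hb⟩ := h.orbit_per o (by rw [hk, h0]) (by rw [hm, h1]) j
    refine ⟨b + a (j + n) - a j, ?_⟩
    rw [ha, ha, hb]
    push_cast
    ring

theorem per_null (H : NoClosed) (h : Oval g) {n : ℕ} (hn : 1 ≤ n) : volume (Per g n) = 0 := by
  by_contra hv
  have X0 : X g 0 = Prod.fst := rfl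
  have X1 : X g 1 = Prod.snd := rfl
  refine no_fn H
    { E := Per g n
      n := n
      t := fun j p => dir g (X g j p) (X g (j + 1) p)
      z := fun j p => g (X g j p)
      w := fun j p => (starRingEnd ℂ) (g (X g j p))
      q := fun j p => qf g (X g j p)
      c := fun j p => cf g (X g j p)
      vol := hv
      st := fun j p hp => h.smooth_dir ((h.X_spec hp).2.1 j) ((h.X_spec hp).2.1 (j + 1))
        ((h.X_spec hp).1.far j)
      sz := fun j p hp => h.smooth.contDiffAt.comp p ((h.X_spec hp).2.1 j)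
      sw := fun j p hp => smooth_conj (h.smooth.contDiffAt.comp p ((h.X_spec hp).2.1 j))
      sq := fun j p hp => h.smooth_qf.contDiffAt.comp p ((h.X_spec hp).2.1 j)
      sc := fun j p hp => h.smooth_cf.contDiffAt.comp p ((h.X_spec hp).2.1 j)
      t_ne := fun j p hp => h.dir_ne ((h.X_spec hp).1.far j)
      chord := fun j p hp => h.chord_dir ((h.X_spec hp).1.far j)
      refl := fun j p hp => h.refl_dir ((h.X_spec hp).1.far j) ((h.X_spec hp).1.far (j + 1))
        ((h.X_spec hp).1.law j)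
      dz := fun j v p hp => ?_
      dq := fun j v p hp => ?_
      c_ne := fun j p _ => h.cf_ne _
      τz := fun _ _ _ => rfl
      τt := fun j p hp => h.conj_dir ((h.X_spec hp).1.far j)
      z_ne := fun j p hp e => h.sub_ne ((h.X_spec hp).1.far j) (sub_eq_zero.2 e.symm)
      th := fun j p hp => h.th_pos ((h.X_spec hp).1.far j) ((h.X_spec hp).1.far (j + 1))
        ((h.X_spec hp).1.law j)
      n_pos := hn
      t_per := fun j p hp => ?_
      z_per := fun j p hp => ?_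
      q_per := fun j p hp => ?_
      c_per := fun j p hp => ?_
      w₀₁ := fun p hp => ?_
      w₀₂ := fun p hp => ?_
      w₁₁ := fun p hp => ?_
      w₁₂ := fun p hp => ?_ }
  · rw [pd_comp (h.hd _) ((h.X_spec hp).2.1 j), pd_comp (h.hd_conj _) ((h.X_spec hp).2.1 j)]
    have := h.cd_ne (X g j p)
    unfold qf
    field_simp
  · rw [pd_comp (h.hd_qf _) ((h.X_spec hp).2.1 j), pd_comp (h.hd_conj _) ((h.X_spec hp).2.1 j)]
    ring
  · obtain ⟨a, ha⟩ := (h.X_spec hp).2.2 j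
    obtain ⟨b, hb⟩ := (h.X_spec hp).2.2 (j + 1)
    rw [show j + n + 1 = j + 1 + n by ring, ha, hb, h.dir_shift]
  · obtain ⟨a, ha⟩ := (h.X_spec hp).2.2 j
    rw [ha, h.perZ]
  · obtain ⟨a, ha⟩ := (h.X_spec hp).2.2 j
    rw [ha, h.qf_shift]
  · obtain ⟨a, ha⟩ := (h.X_spec hp).2.2 j
    rw [ha, h.cf_shift]
  · rw [pd_comp (h.hd_conj _) ((h.X_spec hp).2.1 0), X0, fderiv_fst]
    simpa using h.d_ne _
  · rw [pd_comp (h.hd_conj _) ((h.X_spec hp).2.1 0), X0, fderiv_fst]
    simp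
  · rw [pd_comp (h.hd_conj _) ((h.X_spec hp).2.1 1), X1, fderiv_snd]
    simp
  · rw [pd_comp (h.hd_conj _) ((h.X_spec hp).2.1 1), X1, fderiv_snd]
    simpa using h.d_ne _

/-- Block A0: the frozen statement follows from the algebraic main theorem. -/
theorem a0 (H : NoClosed) :
    ∀ γ : ℝ → ℝ × ℝ,
      (∀ n : ℕ, ContDiff ℝ n γ) →
      (∀ s : ℝ, γ (s + 1) = γ s) →
      (∀ s t : ℝ, γ s = γ t → ∃ k : ℤ, t = s + k) →
      (∀ s : ℝ, 0 < (deriv γ s).1 * (deriv (deriv γ) s).2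
                    - (deriv γ s).2 * (deriv (deriv γ) s).1) →
      MeasureTheory.volume
        {p : ℝ × ℝ | ∃ x : ℕ → ℝ, x 0 = p.1 ∧ x 1 = p.2 ∧
          (∀ i : ℕ, ∀ k : ℤ, x (i + 1) ≠ x i + k) ∧
          (∀ i : ℕ,
            (((γ (x (i + 1))).1 - (γ (x i)).1) * (deriv γ (x (i + 1))).1
              + ((γ (x (i + 1))).2 - (γ (x i)).2) * (deriv γ (x (i + 1))).2)
            * Real.sqrt (((γ (x (i + 2))).1 - (γ (x (i + 1))).1) ^ 2
                + ((γ (x (i + 2))).2 - (γ (x (i + 1))).2) ^ 2)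
            =
            (((γ (x (i + 2))).1 - (γ (x (i + 1))).1) * (deriv γ (x (i + 1))).1
              + ((γ (x (i + 2))).2 - (γ (x (i + 1))).2) * (deriv γ (x (i + 1))).2)
            * Real.sqrt (((γ (x (i + 1))).1 - (γ (x i)).1) ^ 2
                + ((γ (x (i + 1))).2 - (γ (x i)).2) ^ 2)) ∧
          ∃ n : ℕ, 1 ≤ n ∧ ∃ k m : ℤ, x n = p.1 + k ∧ x (n + 1) = p.2 + m} = 0 := by
  intro γ h1 h2 h3 h4
  let e := equivRealProdCLM.symm
  let g : ℝ → ℂ := e ∘ γ
  have hs : ContDiff ℝ ∞ γ := contDiff_infty.2 h1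
  have hs' : ContDiff ℝ ∞ (deriv γ) := (contDiff_infty_iff_deriv.1 hs).2
  have d1 : deriv g = e ∘ deriv γ := funext fun s =>
    (e.hasFDerivAt.comp_hasDerivAt s (hs.differentiable (by simp) s).hasDerivAt).deriv
  have d2 : deriv (deriv g) = e ∘ deriv (deriv γ) := by
    rw [d1]
    exact funext fun s =>
      (e.hasFDerivAt.comp_hasDerivAt s (hs'.differentiable (by simp) s).hasDerivAt).deriv
  have ere : ∀ v : ℝ × ℝ, (e v).re = v.1 := fun v => by simp [e]
  have eim : ∀ v : ℝ × ℝ, (e v).im = v.2 := fun v => by simp [e]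
  have h : Oval g :=
    { smooth := e.contDiff.comp hs
      per := fun s => by simp only [g, Function.comp, h2]
      inj := fun s t hst => h3 s t (e.injective hst)
      curv := fun s => by
        rw [d2, d1]
        simp only [Function.comp, mul_im, conj_re, conj_im, ere, eim]
        linarith [h4 s] }
  have hnorm : ∀ s r, ‖g r - g s‖ =
      Real.sqrt (((γ r).1 - (γ s).1) ^ 2 + ((γ r).2 - (γ s).2) ^ 2) := by
    intro s r
    rw [Complex.norm_def, normSq_apply]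
    simp only [g, Function.comp, sub_re, sub_im, ere, eim]
    congr 1
    ring
  have hcos : ∀ u s r, ((starRingEnd ℂ) (deriv g u) * dir g s r).re =
      (((γ r).1 - (γ s).1) * (deriv γ u).1 + ((γ r).2 - (γ s).2) * (deriv γ u).2) /
        ‖g r - g s‖ := by
    intro u s r
    rw [dir, ← mul_div_assoc, div_ofReal_re, d1]
    simp only [g, Function.comp, mul_re, conj_re, conj_im, sub_re, sub_im, ere, eim]
    congr 1
    ring
  refine measure_mono_null (t := ⋃ n : ℕ, Per g (n + 1)) ?_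
    (measure_iUnion_null fun n => per_null H h (by omega))
  rintro p ⟨x, x0, x1, hf, hl, n, hn, k, m, hk, hm⟩
  obtain ⟨n, rfl⟩ : ∃ n', n = n' + 1 := ⟨n - 1, by omega⟩
  refine mem_iUnion.2 ⟨n, x, ⟨hf, fun i => ?_⟩, x0, x1, k, m, hk, hm⟩
  have a1 := norm_ne_zero_iff.2 (h.sub_ne (hf i))
  have a2 := norm_ne_zero_iff.2 (h.sub_ne (hf (i + 1)))
  have := hl i
  rw [← hnorm, ← hnorm] at this
  rw [cosOut, cosIn, hcos, hcos, div_eq_div_iff a2 a1]
  exact this.symm

end Ivrii.A0
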